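import Pool.Agent.MP_bf58c1_co.Defs

/-!
# Integer vectors, cones and certificate trees
-/

namespace Pool.Agent.MP_bf58c1_co

open Set

/-- integer vectors -/
abbrev Z3 : Type := ℤ × ℤ × ℤ

/-- cross product -/
def zcross (a b : Z3) : Z3 :=
  (a.2.1 * b.2.2 - a.2.2 * b.2.1, a.2.2 * b.1 - a.1 * b.2.2, a.1 * b.2.1 - a.2.1 * b.1)

/-- dot product -/
def zdot (a b : Z3) : ℤ := a.1 * b.1 + a.2.1 * b.2.1 + a.2.2 * b.2.2

/-- negation -/
def zneg (a : Z3) : Z3 := (-a.1, -a.2.1, -a.2.2)

/-- the real vector with the given integer coordinates -/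
noncomputable def toE (a : Z3) : E3 := !₂[(a.1 : ℝ), (a.2.1 : ℝ), (a.2.2 : ℝ)]

@[simp] lemma toE_zero' (a : Z3) : toE a 0 = (a.1 : ℝ) := by simp [toE]
@[simp] lemma toE_one' (a : Z3) : toE a 1 = (a.2.1 : ℝ) := by simp [toE]
@[simp] lemma toE_two' (a : Z3) : toE a 2 = (a.2.2 : ℝ) := by simp [toE]

/-- the linear functional with integer coefficients `n` -/
noncomputable def rdot (n : Z3) (x : E3) : ℝ := n.1 * x 0 + n.2.1 * x 1 + n.2.2 * x 2

lemma rdot_add (n : Z3) (x y : E3) : rdot n (x + y) = rdot n x + rdot n y := by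
  simp [rdot]; ring

lemma rdot_smul (n : Z3) (c : ℝ) (x : E3) : rdot n (c • x) = c * rdot n x := by
  simp [rdot]; ring

lemma rdot_toE (n a : Z3) : rdot n (toE a) = (zdot n a : ℝ) := by
  simp [rdot, zdot]

lemma rdot_zneg (n : Z3) (x : E3) : rdot (zneg n) x = - rdot n x := by
  simp [rdot, zneg]; ring

lemma E3.ext' {x y : E3} (h0 : x 0 = y 0) (h1 : x 1 = y 1) (h2 : x 2 = y 2) : x = y := by
  ext i; fin_cases i
  · exact h0
  · exact h1
  · exact h2

/-- closed simplicial cone over three integer vectors -/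
def InCone (a b c : Z3) (N : E3) : Prop :=
  ∃ x y z : ℝ, 0 ≤ x ∧ 0 ≤ y ∧ 0 ≤ z ∧ N = x • toE a + y • toE b + z • toE c

lemma InCone.rot {a b c : Z3} {N : E3} (h : InCone a b c N) : InCone b c a N := by
  obtain ⟨x, y, z, hx, hy, hz, rfl⟩ := h
  exact ⟨y, z, x, hy, hz, hx, by abel⟩

lemma InCone.rdot_nonneg {a b c n : Z3} {N : E3} (h : InCone a b c N)
    (ha : 0 ≤ zdot n a) (hb : 0 ≤ zdot n b) (hc : 0 ≤ zdot n c) : 0 ≤ rdot n N := by
  obtain ⟨x, y, z, hx, hy, hz, rfl⟩ := h
  rw [rdot_add, rdot_add, rdot_smul, rdot_smul, rdot_smul, rdot_toE, rdot_toE, rdot_toE]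
  have ha' : (0 : ℝ) ≤ (zdot n a : ℝ) := by exact_mod_cast ha
  have hb' : (0 : ℝ) ≤ (zdot n b : ℝ) := by exact_mod_cast hb
  have hc' : (0 : ℝ) ≤ (zdot n c : ℝ) := by exact_mod_cast hc
  positivity

/-- binary subdivision trees of a simplicial cone -/
inductive Tree (L : Type) : Type where
  | leaf : L → Tree L
  | node : ℕ → ℤ → ℤ → ℤ → Z3 → Tree L → Tree L → Tree L

/-- the point `m` is a positive combination of `a` and `b` -/
def nodeOk (α β g : ℤ) (m a b : Z3) : Bool :=
  decide (0 < α) && decide (0 < β) && decide (0 < g) &&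
    decide (g * m.1 = α * a.1 + β * b.1) && decide (g * m.2.1 = α * a.2.1 + β * b.2.1) &&
    decide (g * m.2.2 = α * a.2.2 + β * b.2.2)

/-- check all leaves of a subdivision tree -/
def Tree.check {L : Type} (chk : Z3 → Z3 → Z3 → L → Bool) : Tree L → Z3 → Z3 → Z3 → Bool
  | .leaf l, a, b, c => chk a b c l
  | .node 0 α β g m l r, a, b, c =>
      nodeOk α β g m a b && l.check chk a m c && r.check chk m b c
  | .node 1 α β g m l r, a, b, c =>
      nodeOk α β g m b c && l.check chk b m a && r.check chk m c a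
  | .node _ α β g m l r, a, b, c =>
      nodeOk α β g m c a && l.check chk c m b && r.check chk m a b

/-- transport a tree -/
def Tree.map {L M : Type} (f : Z3 → Z3) (h : L → M) : Tree L → Tree M
  | .leaf l => .leaf (h l)
  | .node e α β g m l r => .node e α β g (f m) (l.map f h) (r.map f h)

lemma split_cone {α β g : ℤ} {m a b c : Z3} {N : E3} (hok : nodeOk α β g m a b = true)
    (h : InCone a b c N) : InCone a m c N ∨ InCone m b c N := by
  simp only [nodeOk, Bool.and_eq_true, decide_eq_true_eq] at hok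
  obtain ⟨⟨⟨⟨⟨hα, hβ⟩, hg⟩, h1⟩, h2⟩, h3⟩ := hok
  obtain ⟨x, y, z, hx, hy, hz, rfl⟩ := h
  have hα' : (0 : ℝ) < (α : ℝ) := by exact_mod_cast hα
  have hβ' : (0 : ℝ) < (β : ℝ) := by exact_mod_cast hβ
  have hg' : (0 : ℝ) < (g : ℝ) := by exact_mod_cast hg
  have h1' : (g : ℝ) * m.1 = α * a.1 + β * b.1 := by exact_mod_cast h1
  have h2' : (g : ℝ) * m.2.1 = α * a.2.1 + β * b.2.1 := by exact_mod_cast h2
  have h3' : (g : ℝ) * m.2.2 = α * a.2.2 + β * b.2.2 := by exact_mod_cast h3
  have hm : (g : ℝ) • toE m = (α : ℝ) • toE a + (β : ℝ) • toE b := by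
    apply E3.ext' <;> simp [h1', h2', h3']
  rcases le_total (y * α) (x * β) with hc | hc
  · left
    refine ⟨x - y * α / β, y * g / β, z, ?_, by positivity, hz, ?_⟩
    · rw [sub_nonneg, div_le_iff₀ hβ']; exact hc
    · have : (y * g / β) • toE m = (y / β) • ((g : ℝ) • toE m) := by
        rw [smul_smul]; congr 1; ring
      rw [this, hm, smul_add, smul_smul, smul_smul, sub_smul]
      have e1 : y / β * (β : ℝ) = y := by field_simp
      have e2 : y / β * (α : ℝ) = y * α / β := by ring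
      rw [e1, e2]; abel
  · right
    refine ⟨x * g / α, y - x * β / α, z, by positivity, ?_, hz, ?_⟩
    · rw [sub_nonneg, div_le_iff₀ hα']; exact hc
    · have : (x * g / α) • toE m = (x / α) • ((g : ℝ) • toE m) := by
        rw [smul_smul]; congr 1; ring
      rw [this, hm, smul_add, smul_smul, smul_smul, sub_smul]
      have e1 : x / α * (α : ℝ) = x := by field_simp
      have e2 : x / α * (β : ℝ) = x * β / α := by ring
      rw [e1, e2]; abel

/-- Soundness of subdivision trees: every vector of the root cone lies in a leaf cone. -/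
theorem Tree.sound {L : Type} (chk : Z3 → Z3 → Z3 → L → Bool) (t : Tree L) :
    ∀ (a b c : Z3) (N : E3), t.check chk a b c = true → InCone a b c N →
      ∃ a' b' c' l, chk a' b' c' l = true ∧ InCone a' b' c' N := by
  induction t with
  | leaf l => intro a b c N h hN; exact ⟨a, b, c, l, h, hN⟩
  | node e α β g m l r ihl ihr =>
    intro a b c N h hN
    match e, h with
    | 0, h =>
      simp only [Tree.check, Bool.and_eq_true] at h
      rcases split_cone h.1.1 hN with h' | h'
      · exact ihl _ _ _ _ h.1.2 h'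
      · exact ihr _ _ _ _ h.2 h'
    | 1, h =>
      simp only [Tree.check, Bool.and_eq_true] at h
      rcases split_cone h.1.1 hN.rot with h' | h'
      · exact ihl _ _ _ _ h.1.2 h'
      · exact ihr _ _ _ _ h.2 h'
    | (n + 2), h =>
      simp only [Tree.check, Bool.and_eq_true] at h
      rcases split_cone h.1.1 hN.rot.rot with h' | h'
      · exact ihl _ _ _ _ h.1.2 h'
      · exact ihr _ _ _ _ h.2 h'

end Pool.Agent.MP_bf58c1_co
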