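import Pool.Agent.MP_bf58c1_co.Cone

/-!
# The example: 20 vertices, 54 edges, 36 faces, with tetrahedral rotational symmetry,
and integer certificates
-/

namespace Pool.Agent.MP_bf58c1_co

open Set

/-- integer vectors in the directions of the 20 vertices -/
def vtab : List Z3 :=
  [(-1,-10,-3), (-10,-3,-1), (-3,-1,-10), (-1,10,3), (-10,3,1), (-3,1,10), (1,-10,3), (10,-3,1), (3,-1,10), (1,10,-3), (10,3,-1), (3,1,-10), (1,1,1), (1,-1,-1), (-1,1,-1), (-1,-1,1), (-1,-1,-1), (-1,1,1), (1,-1,1), (1,1,-1)]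

/-- the 36 faces (counterclockwise seen from outside) -/
def ftab : List (ℕ × ℕ × ℕ) :=
  [(2,6,8), (0,4,3), (1,11,10), (5,9,11), (3,1,0), (4,8,7), (8,0,2), (6,10,9), (7,5,4), (11,3,5), (9,7,6), (10,2,1), (8,15,0), (3,14,1), (10,13,2), (11,14,3), (0,15,4), (7,12,5), (2,13,6), (9,12,7), (4,15,8), (5,12,9), (6,13,10), (1,14,11), (10,19,9), (8,18,7), (3,17,5), (7,18,6), (11,19,10), (0,16,2), (4,17,3), (2,16,1), (9,19,11), (1,16,0), (5,17,4), (6,18,8)]

/-- the 54 edges -/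
def etab : List (ℕ × ℕ) :=
  [(0,1), (0,2), (0,3), (0,4), (0,8), (0,15), (0,16), (1,2), (1,3), (1,10), (1,11), (1,14), (1,16), (2,6), (2,8), (2,10), (2,13), (2,16), (3,4), (3,5), (3,11), (3,14), (3,17), (4,5), (4,7), (4,8), (4,15), (4,17), (5,7), (5,9), (5,11), (5,12), (5,17), (6,7), (6,8), (6,9), (6,10), (6,13), (6,18), (7,8), (7,9), (7,12), (7,18), (8,15), (8,18), (9,10), (9,11), (9,12), (9,19), (10,11), (10,13), (10,19), (11,14), (11,19)]

/-- action of the rotation group on face indices -/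
def fperm : List (List ℕ) :=
  [[0, 1, 2, 3, 4, 5, 6, 7, 8, 9, 10, 11, 12, 13, 14, 15, 16, 17, 18, 19, 20, 21, 22, 23, 24, 25, 26, 27, 28, 29, 30, 31, 32, 33, 34, 35],
   [1, 2, 0, 10, 11, 9, 4, 5, 3, 7, 8, 6, 13, 14, 12, 22, 23, 21, 16, 17, 15, 19, 20, 18, 25, 26, 24, 34, 35, 33, 28, 29, 27, 31, 32, 30],
   [2, 0, 1, 8, 6, 7, 11, 9, 10, 5, 3, 4, 14, 12, 13, 20, 18, 19, 23, 21, 22, 17, 15, 16, 26, 24, 25, 32, 30, 31, 35, 33, 34, 29, 27, 28],
   [3, 4, 5, 0, 1, 2, 9, 10, 11, 6, 7, 8, 15, 16, 17, 12, 13, 14, 21, 22, 23, 18, 19, 20, 27, 28, 29, 24, 25, 26, 33, 34, 35, 30, 31, 32],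
   [4, 5, 3, 7, 8, 6, 1, 2, 0, 10, 11, 9, 16, 17, 15, 19, 20, 18, 13, 14, 12, 22, 23, 21, 28, 29, 27, 31, 32, 30, 25, 26, 24, 34, 35, 33],
   [5, 3, 4, 11, 9, 10, 8, 6, 7, 2, 0, 1, 17, 15, 16, 23, 21, 22, 20, 18, 19, 14, 12, 13, 29, 27, 28, 35, 33, 34, 32, 30, 31, 26, 24, 25],
   [6, 7, 8, 9, 10, 11, 0, 1, 2, 3, 4, 5, 18, 19, 20, 21, 22, 23, 12, 13, 14, 15, 16, 17, 30, 31, 32, 33, 34, 35, 24, 25, 26, 27, 28, 29],
   [7, 8, 6, 4, 5, 3, 10, 11, 9, 1, 2, 0, 19, 20, 18, 16, 17, 15, 22, 23, 21, 13, 14, 12, 31, 32, 30, 28, 29, 27, 34, 35, 33, 25, 26, 24],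
   [8, 6, 7, 2, 0, 1, 5, 3, 4, 11, 9, 10, 20, 18, 19, 14, 12, 13, 17, 15, 16, 23, 21, 22, 32, 30, 31, 26, 24, 25, 29, 27, 28, 35, 33, 34],
   [9, 10, 11, 6, 7, 8, 3, 4, 5, 0, 1, 2, 21, 22, 23, 18, 19, 20, 15, 16, 17, 12, 13, 14, 33, 34, 35, 30, 31, 32, 27, 28, 29, 24, 25, 26],
   [10, 11, 9, 1, 2, 0, 7, 8, 6, 4, 5, 3, 22, 23, 21, 13, 14, 12, 19, 20, 18, 16, 17, 15, 34, 35, 33, 25, 26, 24, 31, 32, 30, 28, 29, 27],
   [11, 9, 10, 5, 3, 4, 2, 0, 1, 8, 6, 7, 23, 21, 22, 17, 15, 16, 14, 12, 13, 20, 18, 19, 35, 33, 34, 29, 27, 28, 26, 24, 25, 32, 30, 31]]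

/-- certificate tree for face 0 -/
def ctree0 : Tree (List (ℕ × ℕ)) :=
  .node 2 1 1 2 (0,-1,0)
   (.node 0 1 3 1 (3,-4,10)
    (.leaf [(2,2), (4,1), (9,3)])
    (.node 0 1 34 1 (3,-38,10)
     (.leaf [(2,1), (4,1), (9,3)])
     (.node 1 31 1 1 (1,-41,3)
      (.leaf [(2,1), (4,8), (8,3), (9,3), (10,45), (30,25), (32,14), (34,7)])
      (.leaf [(2,1), (4,1), (9,6)]))))
   (.node 1 1 2 1 (-1,-21,-4)
    (.node 2 7 2 1 (-6,-9,-20)
     (.node 0 68 1 1 (-6,-77,-20)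
      (.leaf [(2,2), (3,3), (4,30), (8,1), (10,8), (24,7), (26,12), (32,23)])
      (.leaf [(3,3), (8,1), (10,1)]))
     (.leaf [(3,5), (8,2), (10,1)]))
    (.node 0 1 1 1 (0,-31,-1)
     (.leaf [(2,1), (3,3), (4,14), (8,1), (10,5), (24,14), (26,13), (28,4), (30,1)])
     (.node 1 1 5 1 (1,-15,3)
      (.node 2 1 9 1 (9,-121,26)
       (.leaf [(2,1), (4,9), (8,2), (9,3), (10,23), (24,1), (30,23), (32,16), (34,6)])
       (.leaf [(2,1), (4,1), (9,3)]))
      (.leaf [(2,1), (4,8), (8,1), (9,3), (10,13), (24,1), (26,18), (30,5), (32,12)]))))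

/-- certificate tree for face 12 -/
def ctree1 : Tree (List (ℕ × ℕ)) :=
  .node 2 1 1 1 (2,-11,7)
   (.node 1 1 4 1 (-2,-15,11)
    (.node 2 3 2 1 (1,-52,5)
     (.node 2 2 1 1 (-5,-40,19)
      (.leaf [(2,1), (4,1), (9,30)])
      (.node 0 1 8 1 (-13,-120,-5)
       (.node 2 2 1 1 (-3,-144,29)
        (.leaf [(2,2), (4,19), (8,5), (10,67), (24,70), (28,6), (30,50), (34,12)])
        (.leaf [(0,112), (4,8), (8,2), (25,21), (29,200), (30,21), (33,22), (34,5), (35,72)]))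
       (.node 1 5 1 2 (-2,-51,-5)
        (.leaf [(3,4), (8,1), (10,1)])
        (.leaf [(2,1), (4,10), (8,1), (10,10), (24,16), (28,3), (30,16), (34,3)]))))
     (.leaf [(2,1), (4,1), (9,6)]))
    (.node 1 6 1 1 (-7,-16,3)
     (.leaf [(0,8), (4,3), (8,2), (25,14), (29,26), (30,12), (33,7), (34,5), (35,13)])
     (.node 1 4 1 1 (-6,-55,-1)
      (.leaf [(3,3), (8,1), (10,4)])
      (.leaf [(0,36), (4,7), (8,2), (25,17), (29,100), (30,19), (33,20), (34,5), (35,34)]))))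
   (.node 1 1 6 1 (-3,-7,16)
    (.leaf [(2,2), (4,1), (9,4)])
    (.node 1 3 1 1 (-1,-14,10)
     (.leaf [(0,6), (4,1), (8,3), (25,16), (29,14), (30,6), (33,3), (34,5), (35,12)])
     (.leaf [(2,1), (4,1), (9,3)])))

/-- certificate tree for face 24 -/
def ctree2 : Tree (List (ℕ × ℕ)) :=
  .leaf [(1,3), (5,1), (6,2)]

/-- covering tree, octant (+,+,+) -/
def covP : Tree ℕ :=
  .node 1 13 9 1 (0,13,9)
   (.node 2 4 13 1 (4,13,0)
    (.node 2 13 133 1 (133,169,117)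
     (.leaf 21)
     (.node 0 1 17157 13 (1330,13,9)
      (.leaf 19)
      (.node 1 399 1 13 (31,1,0)
       (.leaf 10)
       (.leaf 19))))
    (.node 0 1 399 4 (1,103,0)
     (.leaf 21)
     (.node 1 266 1 9 (0,31,1)
      (.leaf 3)
      (.leaf 21))))
   (.node 1 4 13 1 (13,0,4)
    (.node 2 4 133 13 (0,4,13)
     (.node 2 1 1 13 (1,1,1)
      (.leaf 17)
      (.leaf 21))
     (.node 0 1 399 4 (0,1,103)
      (.leaf 17)
      (.node 1 399 1 13 (1,0,31)
       (.leaf 8)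
       (.leaf 17))))
    (.node 1 133 13 1 (133,169,117)
     (.node 0 17157 1 13 (1330,13,9)
      (.node 2 1 399 4 (103,0,1)
       (.leaf 19)
       (.leaf 10))
      (.leaf 19))
     (.node 1 1 1 13 (1,1,1)
      (.leaf 21)
      (.leaf 19))))

/-- covering tree, octant (-,-,-) -/
def covM : Tree ℕ :=
  .node 2 10 3 1 (-3,0,-10)
   (.node 1 1 1 1 (-3,-1,-10)
    (.node 0 1 9 1 (-30,-9,-100)
     (.node 0 97 83 9 (-309,-83,-1030)
      (.node 2 83 1 3 (-1,0,-31)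
       (.leaf 2)
       (.leaf 23))
      (.leaf 2))
     (.leaf 11))
    (.node 1 4 13 1 (0,-4,-13)
     (.node 0 399 1 13 (0,-31,-1)
      (.leaf 0)
      (.leaf 18))
     (.node 0 1 399 4 (0,-1,-103)
      (.leaf 14)
      (.leaf 11))))
   (.node 2 100 3 1 (-9,-100,-30)
    (.node 1 1 1 10 (-1,-10,-3)
     (.leaf 6)
     (.node 1 4 13 1 (-4,-13,0)
      (.node 0 399 1 13 (-31,-1,0)
       (.leaf 1)
       (.leaf 16))
      (.node 0 1 399 4 (-1,-103,0)
       (.leaf 12)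
       (.leaf 6))))
    (.node 2 9409 29 10 (-967,-290,-87)
     (.node 2 1 1027 10 (-103,0,-1)
      (.node 2 1027 996 1 (-996097,-297830,-99309)
       (.leaf 4)
       (.node 1 399 118 1027 (-13,0,-4)
        (.node 2 118 12901 1027 (-114487,-34220,-11536)
         (.leaf 13)
         (.leaf 23))
        (.leaf 13)))
      (.leaf 4))
     (.node 1 1 97 100 (-3,-1,-10)
      (.node 2 1 938 9409 (-1,-10,-3)
       (.node 2 1 1 97 (-10,-3,-1)
        (.node 2 1 1 1 (-4,-11,-13)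
         (.node 1 1 1 14 (-1,-1,-1)
          (.leaf 29)
          (.leaf 33))
         (.node 2 1 1 14 (-1,-1,-1)
          (.leaf 31)
          (.leaf 29)))
        (.leaf 4))
       (.leaf 6))
      (.node 2 1 1 97 (-10,-3,-1)
       (.node 2 127 118 1 (-114487,-34220,-11536)
        (.leaf 23)
        (.node 0 996 12901 127 (-996097,-297830,-99309)
         (.leaf 13)
         (.leaf 4)))
       (.node 1 9 1 1 (-30,-9,-100)
        (.leaf 11)
        (.node 0 83 97 9 (-309,-83,-1030)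
         (.leaf 2)
         (.leaf 23)))))))

/-- the `i`-th vertex vector -/
def vert (i : ℕ) : Z3 := vtab.getD i (0, 0, 0)

/-- the `f`-th face -/
def face (f : ℕ) : ℕ × ℕ × ℕ := ftab.getD f (0, 0, 0)

/-- first corner of a face -/
def fa (f : ℕ) : Z3 := vert (face f).1
/-- second corner of a face -/
def fb (f : ℕ) : Z3 := vert (face f).2.1
/-- third corner of a face -/
def fc (f : ℕ) : Z3 := vert (face f).2.2

/-- the 12 rotations of the tetrahedral group, `g = 3 m + s`: cyclic shift by `s`, then signs -/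
def act (g : ℕ) (v : Z3) : Z3 :=
  let w : Z3 := match g % 3 with
    | 0 => v
    | 1 => (v.2.1, v.2.2, v.1)
    | _ => (v.2.2, v.1, v.2.1)
  match g / 3 with
    | 0 => w
    | 1 => (w.1, -w.2.1, -w.2.2)
    | 2 => (-w.1, w.2.1, -w.2.2)
    | _ => (-w.1, -w.2.1, w.2.2)

/-- action on face indices -/
def actF (g f : ℕ) : ℕ := (fperm.getD g []).getD f 0

/-- covering certificate for a leaf: all three corners are in the closed cone of face `f` -/
def chkCov (a b c : Z3) (f : ℕ) : Bool :=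
  decide (f < 36) &&
  (let n1 := zcross (fb f) (fc f)
   let n2 := zcross (fc f) (fa f)
   let n3 := zcross (fa f) (fb f)
   [a, b, c].all fun N => decide (0 ≤ zdot n1 N) && decide (0 ≤ zdot n2 N) && decide (0 ≤ zdot n3 N))

/-- contribution of face `f` to the coefficient of vertex `i`, at the pole direction `N` -/
def contrib (f i : ℕ) (N : Z3) : ℤ :=
  (if (face f).1 = i then zdot (zcross (fb f) (fc f)) N else 0) +
  (if (face f).2.1 = i then zdot (zcross (fc f) (fa f)) N else 0) +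
  (if (face f).2.2 = i then zdot (zcross (fa f) (fb f)) N else 0)

/-- the coefficient of vertex `i` at `N` for the weights `w` -/
def coef (w : List (ℕ × ℕ)) (i : ℕ) (N : Z3) : ℤ :=
  w.foldr (fun x acc => (x.2 : ℤ) * contrib x.1 i N + acc) 0

/-- weight certificate for a leaf of face `f0` -/
def chkCert (f0 : ℕ) (a b c : Z3) (w : List (ℕ × ℕ)) : Bool :=
  (!w.isEmpty) && (w.all fun x => decide (x.1 < 36) && decide (x.1 ≠ f0) && decide (0 < x.2)) &&
  ([a, b, c].all fun N => (List.range 20).all fun i => decide (0 ≤ coef w i N))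

/-- the certificate tree for face `f` -/
def certTree (f : ℕ) : Tree (List (ℕ × ℕ)) :=
  let t := match f / 12 with
    | 0 => ctree0
    | 1 => ctree1
    | _ => ctree2
  t.map (act (f % 12)) (List.map fun x => (actF (f % 12) x.1, x.2))

/-- check the certificate tree of face `f` -/
def certOk (f : ℕ) : Bool := (certTree f).check (chkCert f) (fa f) (fb f) (fc f)

theorem certOk_all : (List.range 36).all certOk = true := by decide +kernel

/-- the covering tree for the octant with signs given by `o < 8` -/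
def covTree (o : ℕ) : Tree ℕ :=
  let g := 3 * (o / 2)
  (if o % 2 = 0 then covP else covM).map (act g) (actF g)

/-- root cones of the covering trees -/
def covRoot (o : ℕ) : Z3 × Z3 × Z3 :=
  let g := 3 * (o / 2)
  let s : ℤ := if o % 2 = 0 then 1 else -1
  (act g (s, 0, 0), act g (0, s, 0), act g (0, 0, s))

/-- check one covering tree -/
def covOk (o : ℕ) : Bool :=
  (covTree o).check chkCov (covRoot o).1 (covRoot o).2.1 (covRoot o).2.2

theorem covOk_all : (List.range 8).all covOk = true := by decide +kernel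

end Pool.Agent.MP_bf58c1_co
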