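import Mathlib

/-!
# Shortest-path triangulations of the sphere, longitudinal morphs and sinkability

Definitions for problem `MP_bf58c1_co`, following its problem file.
-/

namespace Pool.Agent.MP_bf58c1_co

open Set

/-- Euclidean 3-space. -/
abbrev E3 : Type := EuclideanSpace ℝ (Fin 3)

/-- The unit sphere `S²` of Euclidean 3-space, with its subspace topology. -/
abbrev S2 : Type := Metric.sphere (0 : E3) 1

/-- For non-antipodal `p q : S2`, the shorter great-circle arc between `p` and `q`
(endpoints included): the points of the sphere which are nonnegative combinations of `p` and `q`. -/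
def arc (p q : S2) : Set S2 :=
  {x | ∃ a b : ℝ, 0 ≤ a ∧ 0 ≤ b ∧ (x : E3) = a • (p : E3) + b • (q : E3)}

/-- The union of all edges of the drawing of the graph `G` with vertex positions `p`, each edge
being drawn as the shorter great-circle arc. -/
def skeleton {V : Type} (G : SimpleGraph V) (p : V → S2) : Set S2 :=
  {x | ∃ u v, G.Adj u v ∧ x ∈ arc (p u) (p v)}

/-- `IsSPT G p`: drawing the vertices of the finite simple graph `G` at the points `p v` of the
sphere and its edges as the shorter great-circle arcs gives a shortest-path triangulation.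

* `G` has at least 4 vertices and is maximal planar: the drawing is an embedding, so `G` is planar,
  and a planar simple graph on `n ≥ 3` vertices is maximal planar iff it has `3 n - 6` edges;
* no two adjacent vertices are antipodal;
* the drawing is an embedding: distinct vertices are at distinct points, a vertex is on an edge only
  if it is one of its endpoints, and distinct edges meet only at common endpoints;
* every face, i.e. every connected component of the complement of the union of the edges, is a
  spherical triangle: it is bounded by the three edges of a 3-cycle of `G`. -/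
structure IsSPT {V : Type} [Fintype V] (G : SimpleGraph V) (p : V → S2) : Prop where
  four_le : 4 ≤ Fintype.card V
  maximal_planar : G.edgeSet.ncard + 6 = 3 * Fintype.card V
  not_antipodal : ∀ u v, G.Adj u v → (p u : E3) ≠ -(p v : E3)
  injective : Function.Injective p
  vertex_on_edge : ∀ u v w, G.Adj u v → p w ∈ arc (p u) (p v) → w = u ∨ w = v
  edges_meet : ∀ u v u' v', G.Adj u v → G.Adj u' v' → s(u, v) ≠ s(u', v') →
    ∀ x ∈ arc (p u) (p v) ∩ arc (p u') (p v'),
      ∃ w, x = p w ∧ (w = u ∨ w = v) ∧ (w = u' ∨ w = v')
  face_triangle : ∀ x ∉ skeleton G p, ∃ u v w, G.Adj u v ∧ G.Adj v w ∧ G.Adj w u ∧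
    frontier (connectedComponentIn (skeleton G p)ᶜ x) =
      arc (p u) (p v) ∪ arc (p v) (p w) ∪ arc (p w) (p u)

/-- A morph: a family `(q t)` of shortest-path triangulations of the same graph `G`, `t ∈ [0, 1]`,
in which every vertex moves continuously. (The combinatorial embedding is then constant.) -/
def IsMorph {V : Type} [Fintype V] (G : SimpleGraph V) (q : unitInterval → V → S2) : Prop :=
  (∀ v, Continuous fun t => q t v) ∧ ∀ t, IsSPT G (q t)

/-- The poles are the points `(0, 0, 1)` and `(0, 0, -1)`. -/
def IsPole (x : S2) : Prop := (x : E3) = !₂[0, 0, 1] ∨ (x : E3) = !₂[0, 0, -1]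

/-- The longitude of a non-polar point `x`: the open half great circle through `x` joining the two
poles, i.e. the points of the sphere whose horizontal part is a positive multiple of that of `x`. -/
def longitude (x : S2) : Set S2 :=
  {y | ∃ c : ℝ, 0 < c ∧ (y : E3) 0 = c * (x : E3) 0 ∧ (y : E3) 1 = c * (x : E3) 1}

/-- A drawing `p` of `G` is sinkable if no vertex is at a pole and there is a longitudinal morph
(no vertex is ever at a pole, each vertex stays on its longitude) which starts at `p` and ends with
all vertices in the open southern hemisphere `{z < 0}`. -/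
def Sinkable {V : Type} [Fintype V] (G : SimpleGraph V) (p : V → S2) : Prop :=
  (∀ v, ¬ IsPole (p v)) ∧
  ∃ q : unitInterval → V → S2, IsMorph G q ∧ q 0 = p ∧ (∀ t v, ¬ IsPole (q t v)) ∧
    (∀ t v, q t v ∈ longitude (p v)) ∧ ∀ v, (q 1 v : E3) 2 < 0

/-- Multiplication by a matrix of `SO(3)` maps the unit sphere to itself. -/
lemma mulVec_mem_sphere (A : Matrix.specialOrthogonalGroup (Fin 3) ℝ) (x : S2) :
    WithLp.toLp 2 (A.1.mulVec (WithLp.ofLp (x : E3))) ∈ Metric.sphere (0 : E3) 1 := by
  have hA : A.1.transpose * A.1 = 1 :=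
    (Matrix.mem_orthogonalGroup_iff' (Fin 3) ℝ).1 (Matrix.mem_specialOrthogonalGroup_iff.1 A.2).1
  have hx : ‖(x : E3)‖ = 1 := by simp [norm_eq_of_mem_sphere]
  have h1 : ∀ y : E3, ‖y‖ ^ 2 = WithLp.ofLp y ⬝ᵥ WithLp.ofLp y := by
    intro y
    rw [EuclideanSpace.norm_sq_eq]
    simp [dotProduct, sq]
  rw [mem_sphere_zero_iff_norm]
  have h2 : ‖WithLp.toLp 2 (A.1.mulVec (WithLp.ofLp (x : E3)))‖ ^ 2 = 1 := by
    rw [h1]
    show (A.1.mulVec (WithLp.ofLp (x : E3))) ⬝ᵥ (A.1.mulVec (WithLp.ofLp (x : E3))) = 1
    rw [Matrix.dotProduct_mulVec, ← Matrix.mulVec_transpose, Matrix.mulVec_mulVec, hA,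
      Matrix.one_mulVec, ← h1, hx, one_pow]
  have h3 : 0 ≤ ‖WithLp.toLp 2 (A.1.mulVec (WithLp.ofLp (x : E3)))‖ := norm_nonneg _
  nlinarith

/-- The image `R(Γ)` of a drawing `p` under the rotation `R` with matrix `A ∈ SO(3)`. -/
noncomputable def rotate {V : Type} (A : Matrix.specialOrthogonalGroup (Fin 3) ℝ) (p : V → S2) :
    V → S2 :=
  fun v => ⟨WithLp.toLp 2 (A.1.mulVec (WithLp.ofLp (p v : E3))), mulVec_mem_sphere A (p v)⟩

end Pool.Agent.MP_bf58c1_co
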