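import Pool.Agent.MP_bf58c1_co.Geom

/-!
# The example is a shortest-path triangulation
-/

namespace Pool.Agent.MP_bf58c1_co

open Set Filter Topology

lemma vert_pos (i : Fin 20) : 0 < zdot (vert i) (vert i) := by
  revert i; decide +kernel

lemma toE_vert_ne (i : Fin 20) : toE (vert i) ≠ 0 := zdot_self_pos_toE_ne (vert_pos i)

lemma norm_vert_pos (i : Fin 20) : 0 < ‖toE (vert i)‖ := norm_pos_iff.2 (toE_vert_ne i)

/-- positions of the 20 vertices on the sphere -/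
noncomputable def pos (i : Fin 20) : S2 :=
  ⟨‖toE (vert i)‖⁻¹ • toE (vert i), by simp [norm_smul, (norm_vert_pos i).ne']⟩

lemma coe_pos (i : Fin 20) : ((pos i : S2) : E3) = ‖toE (vert i)‖⁻¹ • toE (vert i) := rfl

/-- the graph of the example -/
def gr : SimpleGraph (Fin 20) where
  Adj u v := (u.val, v.val) ∈ etab ∨ (v.val, u.val) ∈ etab
  symm := ⟨fun _ _ h => h.symm⟩
  loopless := ⟨by decide +kernel⟩

instance : DecidableRel gr.Adj := fun u v =>
  inferInstanceAs (Decidable ((u.val, v.val) ∈ etab ∨ (v.val, u.val) ∈ etab))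

lemma zarc_comm (a b : Z3) : zarc a b = zarc b a := by
  ext x
  constructor <;> rintro ⟨s, t, hs, ht, h⟩ <;> exact ⟨t, s, ht, hs, by rw [h, add_comm]⟩

lemma arc_eq (u v : Fin 20) : arc (pos u) (pos v) = zarc (vert u) (vert v) := by
  have hu := norm_vert_pos u
  have hv := norm_vert_pos v
  ext x
  constructor
  · rintro ⟨a, b, ha, hb, h⟩
    refine ⟨a * ‖toE (vert u)‖⁻¹, b * ‖toE (vert v)‖⁻¹, by positivity, by positivity, ?_⟩
    rw [h, coe_pos, coe_pos, smul_smul, smul_smul]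
  · rintro ⟨a, b, ha, hb, h⟩
    refine ⟨a * ‖toE (vert u)‖, b * ‖toE (vert v)‖, by positivity, by positivity, ?_⟩
    rw [h, coe_pos, coe_pos, smul_smul, smul_smul, mul_assoc, mul_assoc,
      mul_inv_cancel₀ hu.ne', mul_inv_cancel₀ hv.ne', mul_one, mul_one]

lemma eq_pos_of_ray {x : S2} {u : Fin 20} {s : ℝ} (hs : 0 ≤ s)
    (h : (x : E3) = s • toE (vert u)) : x = pos u :=
  Subtype.ext (eq_normalized (toE_vert_ne u) (E3.norm_of_S2 x) hs h)

lemma sep_elim {A B : List Z3} (h : sepOk A B = true) :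
    ∃ n : Z3, (∀ a ∈ A, 0 ≤ zdot n a) ∧ (∃ a ∈ A, 0 < zdot n a) ∧ ∀ b ∈ B, zdot n b ≤ 0 := by
  have key : ∀ n, sepPos A B n = true →
      ∃ n : Z3, (∀ a ∈ A, 0 ≤ zdot n a) ∧ (∃ a ∈ A, 0 < zdot n a) ∧ ∀ b ∈ B, zdot n b ≤ 0 := by
    intro n hn
    simp only [sepPos, Bool.and_eq_true, List.all_eq_true, List.any_eq_true,
      decide_eq_true_eq] at hn
    exact ⟨n, hn.1.1, hn.1.2, hn.2⟩
  unfold sepOk at h
  rw [List.any_eq_true] at h
  obtain ⟨n, _, hn⟩ := h
  rw [Bool.or_eq_true] at hn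
  rcases hn with hn | hn
  · exact key _ hn
  · exact key _ hn

lemma etab_lt : ∀ e ∈ etab, e.1 < 20 ∧ e.2 < 20 ∧ e.1 < e.2 := by decide +kernel

/-- a vertex lies on an edge only if it is an endpoint -/
lemma vertex_edge_aux (w : Fin 20) {e : ℕ × ℕ} (he : e ∈ etab)
    (h : pos w ∈ zarc (vert e.1) (vert e.2)) : w.val = e.1 ∨ w.val = e.2 := by
  by_contra hcon
  have h0 := sep_vertex_edge
  rw [List.all_eq_true] at h0
  have h1 := h0 w.val (List.mem_range.2 w.isLt)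
  rw [List.all_eq_true] at h1
  have h2 := h1 e he
  rw [Bool.or_eq_true, Bool.or_eq_true, decide_eq_true_eq, decide_eq_true_eq] at h2
  rcases h2 with h2 | h2
  · exact hcon h2
  obtain ⟨n, _, hn1, hn2⟩ := sep_elim h2
  simp only [exists_eq_left, evec, List.mem_cons, List.not_mem_nil,
    or_false, forall_eq_or_imp, forall_eq] at hn1 hn2
  obtain ⟨s, t, hs, ht, hx⟩ := h
  have e1 : rdot n (pos w : E3) = s * zdot n (vert e.1) + t * zdot n (vert e.2) := by
    rw [hx, rdot_comb]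
  have e2 : rdot n (pos w : E3) = ‖toE (vert w)‖⁻¹ * zdot n (vert w) := by
    rw [coe_pos, rdot_smul, rdot_toE]
  have hw := norm_vert_pos w
  have p1 : (0 : ℝ) < zdot n (vert w) := by exact_mod_cast hn1
  have p2 : (zdot n (vert e.1) : ℝ) ≤ 0 := by exact_mod_cast hn2.1
  have p3 : (zdot n (vert e.2) : ℝ) ≤ 0 := by exact_mod_cast hn2.2
  have q1 : 0 < ‖toE (vert w)‖⁻¹ * zdot n (vert w) := by positivity
  have q2 := mul_nonpos_of_nonneg_of_nonpos hs p2
  have q3 := mul_nonpos_of_nonneg_of_nonpos ht p3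
  linarith

lemma edge_edge_aux {e e' : ℕ × ℕ} (he : e ∈ etab) (he' : e' ∈ etab)
    (hs : sepOk (evec e) (evec e') = true) {x : S2}
    (hx : x ∈ zarc (vert e.1) (vert e.2)) (hx' : x ∈ zarc (vert e'.1) (vert e'.2)) :
    ∃ w : Fin 20, x = pos w ∧ (w.val = e.1 ∨ w.val = e.2) ∧ (w.val = e'.1 ∨ w.val = e'.2) := by
  obtain ⟨n, hn0, hn1, hn2⟩ := sep_elim hs
  simp only [evec, List.mem_cons, List.not_mem_nil, or_false, forall_eq_or_imp, forall_eq,
    exists_eq_or_imp, exists_eq_left] at hn0 hn1 hn2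
  obtain ⟨s, t, hs, ht, h⟩ := hx
  obtain ⟨s', t', hs', ht', h'⟩ := id hx'
  have e1 : rdot n (x : E3) = s * zdot n (vert e.1) + t * zdot n (vert e.2) := by
    rw [h, rdot_comb]
  have e2 : rdot n (x : E3) = s' * zdot n (vert e'.1) + t' * zdot n (vert e'.2) := by
    rw [h', rdot_comb]
  have a1 : (0 : ℝ) ≤ zdot n (vert e.1) := by exact_mod_cast hn0.1
  have a2 : (0 : ℝ) ≤ zdot n (vert e.2) := by exact_mod_cast hn0.2
  have b1 : (zdot n (vert e'.1) : ℝ) ≤ 0 := by exact_mod_cast hn2.1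
  have b2 : (zdot n (vert e'.2) : ℝ) ≤ 0 := by exact_mod_cast hn2.2
  have c1 := mul_nonneg hs a1
  have c2 := mul_nonneg ht a2
  have d1 := mul_nonpos_of_nonneg_of_nonpos hs' b1
  have d2 := mul_nonpos_of_nonneg_of_nonpos ht' b2
  have z1 : s * zdot n (vert e.1) = 0 := by linarith
  have z2 : t * zdot n (vert e.2) = 0 := by linarith
  have hl := etab_lt e he
  rcases hn1 with hn1 | hn1
  · have p : (0 : ℝ) < zdot n (vert e.1) := by exact_mod_cast hn1
    have hs0 : s = 0 := by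
      rcases mul_eq_zero.1 z1 with h0 | h0
      · exact h0
      · exact absurd h0 p.ne'
    rw [hs0, zero_smul, zero_add] at h
    have hxp : x = pos ⟨e.2, hl.2.1⟩ := eq_pos_of_ray ht h
    refine ⟨⟨e.2, hl.2.1⟩, hxp, Or.inr rfl, ?_⟩
    rw [hxp] at hx'
    exact vertex_edge_aux _ he' hx'
  · have p : (0 : ℝ) < zdot n (vert e.2) := by exact_mod_cast hn1
    have ht0 : t = 0 := by
      rcases mul_eq_zero.1 z2 with h0 | h0
      · exact h0
      · exact absurd h0 p.ne'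
    rw [ht0, zero_smul, add_zero] at h
    have hxp : x = pos ⟨e.1, hl.1⟩ := eq_pos_of_ray hs h
    refine ⟨⟨e.1, hl.1⟩, hxp, Or.inl rfl, ?_⟩
    rw [hxp] at hx'
    exact vertex_edge_aux _ he' hx'

lemma edges_meet_aux {e e' : ℕ × ℕ} (he : e ∈ etab) (he' : e' ∈ etab) (hne : e ≠ e') {x : S2}
    (hx : x ∈ zarc (vert e.1) (vert e.2)) (hx' : x ∈ zarc (vert e'.1) (vert e'.2)) :
    ∃ w : Fin 20, x = pos w ∧ (w.val = e.1 ∨ w.val = e.2) ∧ (w.val = e'.1 ∨ w.val = e'.2) := by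
  have h0 := sep_edge_edge
  rw [List.all_eq_true] at h0
  have h1 := h0 e he
  rw [List.all_eq_true] at h1
  have h2 := h1 e' he'
  rw [Bool.or_eq_true, Bool.or_eq_true, decide_eq_true_eq] at h2
  rcases h2 with (h2 | h2) | h2
  · exact absurd h2 hne
  · exact edge_edge_aux he he' h2 hx hx'
  · obtain ⟨w, hw1, hw2, hw3⟩ := edge_edge_aux he' he h2 hx' hx
    exact ⟨w, hw1, hw3, hw2⟩

/-- the edges incident to two adjacent vertices, in table order -/
lemma adj_edge {u v : Fin 20} (h : gr.Adj u v) : ∃ e ∈ etab,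
    ((e.1 = u.val ∧ e.2 = v.val) ∨ (e.1 = v.val ∧ e.2 = u.val)) ∧
    arc (pos u) (pos v) = zarc (vert e.1) (vert e.2) := by
  rcases h with h | h
  · exact ⟨_, h, Or.inl ⟨rfl, rfl⟩, arc_eq u v⟩
  · exact ⟨_, h, Or.inr ⟨rfl, rfl⟩, by rw [arc_eq]; exact zarc_comm _ _⟩

lemma cross_ne : ∀ u v : Fin 20, u ≠ v →
    (zcross (vert u) (vert v) ≠ (0, 0, 0) ∨ zdot (vert u) (vert v) < 0) := by
  decide +kernel

lemma cross_ne_edge : ∀ e ∈ etab, zcross (vert e.1) (vert e.2) ≠ (0, 0, 0) := by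
  decide +kernel

lemma cross_eq_zero_of_smul {a b : Z3} {c : ℝ} (h : toE a = c • toE b) :
    zcross a b = (0, 0, 0) := by
  have h0 : (a.1 : ℝ) = c * b.1 := by simpa using congrArg (fun x : E3 => x 0) h
  have h1 : (a.2.1 : ℝ) = c * b.2.1 := by simpa using congrArg (fun x : E3 => x 1) h
  have h2 : (a.2.2 : ℝ) = c * b.2.2 := by simpa using congrArg (fun x : E3 => x 2) h
  have e1 : a.2.1 * b.2.2 - a.2.2 * b.2.1 = 0 := by
    have : ((a.2.1 * b.2.2 - a.2.2 * b.2.1 : ℤ) : ℝ) = 0 := by push_cast; rw [h1, h2]; ring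
    exact_mod_cast this
  have e2 : a.2.2 * b.1 - a.1 * b.2.2 = 0 := by
    have : ((a.2.2 * b.1 - a.1 * b.2.2 : ℤ) : ℝ) = 0 := by push_cast; rw [h0, h2]; ring
    exact_mod_cast this
  have e3 : a.1 * b.2.1 - a.2.1 * b.1 = 0 := by
    have : ((a.1 * b.2.1 - a.2.1 * b.1 : ℤ) : ℝ) = 0 := by push_cast; rw [h0, h1]; ring
    exact_mod_cast this
  simp only [zcross, e1, e2, e3]

lemma pos_injective : Function.Injective pos := by
  intro u v huv
  by_contra hne
  have hu := norm_vert_pos u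
  have hv := norm_vert_pos v
  have h : ‖toE (vert u)‖⁻¹ • toE (vert u) = ‖toE (vert v)‖⁻¹ • toE (vert v) := by
    rw [← coe_pos, ← coe_pos, huv]
  have h2 : toE (vert u) = (‖toE (vert u)‖ * ‖toE (vert v)‖⁻¹) • toE (vert v) := by
    rw [← smul_smul, ← h, smul_smul, mul_inv_cancel₀ hu.ne', one_smul]
  rcases cross_ne u v hne with h3 | h3
  · exact h3 (cross_eq_zero_of_smul h2)
  · have h4 : rdot (vert u) (toE (vert u)) = (‖toE (vert u)‖ * ‖toE (vert v)‖⁻¹) *
        zdot (vert u) (vert v) := by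
      conv_lhs => rw [h2]
      rw [rdot_smul, rdot_toE]
    rw [rdot_toE] at h4
    have h5 : (0 : ℝ) < zdot (vert u) (vert u) := by exact_mod_cast vert_pos u
    have h6 : (zdot (vert u) (vert v) : ℝ) < 0 := by exact_mod_cast h3
    have h7 : 0 < ‖toE (vert u)‖ * ‖toE (vert v)‖⁻¹ := by positivity
    have h8 := mul_neg_of_pos_of_neg h7 h6
    linarith

lemma pos_not_antipodal {u v : Fin 20} (h : gr.Adj u v) : (pos u : E3) ≠ -(pos v : E3) := by
  intro huv
  have hu := norm_vert_pos u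
  have hv := norm_vert_pos v
  rw [coe_pos, coe_pos] at huv
  rcases h with h | h
  · apply cross_ne_edge _ h
    apply cross_eq_zero_of_smul (c := -(‖toE (vert u)‖ * ‖toE (vert v)‖⁻¹))
    show toE (vert u) = _ • toE (vert v)
    rw [neg_smul, ← smul_smul, ← smul_neg, ← huv, smul_smul, mul_inv_cancel₀ hu.ne', one_smul]
  · apply cross_ne_edge _ h
    apply cross_eq_zero_of_smul (c := -(‖toE (vert v)‖ * ‖toE (vert u)‖⁻¹))
    show toE (vert v) = _ • toE (vert u)
    rw [neg_smul, ← smul_smul, ← smul_neg, huv, neg_neg, smul_smul, mul_inv_cancel₀ hv.ne',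
      one_smul]

end Pool.Agent.MP_bf58c1_co
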