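import Pool.Agent.MP_bf58c1_co.Example

/-!
# Faces of the example, and the proof that it is a shortest-path triangulation
-/

namespace Pool.Agent.MP_bf58c1_co

open Set Filter Topology

lemma gr_card : gr.edgeSet.ncard = 54 := by
  have h1 : ∑ v, gr.degree v = 108 := by decide +kernel
  rw [SimpleGraph.sum_degrees_eq_twice_card_edges] at h1
  rw [Set.ncard_eq_toFinset_card', ← SimpleGraph.edgeFinset]
  omega

/-- every vector lies in the closed cone of some face -/
theorem cover (x : E3) : ∃ f < 36, x ∈ closedCone (fa f) (fb f) (fc f) := by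
  -- choose the octant
  have hoct : ∃ o < 8, InCone (covRoot o).1 (covRoot o).2.1 (covRoot o).2.2 x := by
    have hx : ∀ s0 s1 s2 : ℤ, (s0 = 1 ∨ s0 = -1) → (s1 = 1 ∨ s1 = -1) → (s2 = 1 ∨ s2 = -1) →
        0 ≤ s0 * x 0 → 0 ≤ s1 * x 1 → 0 ≤ s2 * x 2 →
        InCone (s0, 0, 0) (0, s1, 0) (0, 0, s2) x := by
      intro s0 s1 s2 h0 h1 h2 p0 p1 p2
      have q : ∀ s : ℤ, (s = 1 ∨ s = -1) → (s : ℝ) * s = 1 := by
        rintro s (rfl | rfl) <;> norm_num
      refine ⟨s0 * x 0, s1 * x 1, s2 * x 2, p0, p1, p2, ?_⟩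
      apply E3.ext'
      · simp only [PiLp.add_apply, PiLp.smul_apply, toE_zero', smul_eq_mul]
        have := q s0 h0
        push_cast
        linear_combination (-(x 0)) * this
      · simp only [PiLp.add_apply, PiLp.smul_apply, toE_one', smul_eq_mul]
        have := q s1 h1
        push_cast
        linear_combination (-(x 1)) * this
      · simp only [PiLp.add_apply, PiLp.smul_apply, toE_two', smul_eq_mul]
        have := q s2 h2
        push_cast
        linear_combination (-(x 2)) * this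
    have c0 : ∀ y : ℝ, 0 ≤ ((1 : ℤ) : ℝ) * y ∨ 0 ≤ ((-1 : ℤ) : ℝ) * y := by
      intro y
      push_cast
      rcases le_total 0 y with h | h
      · left; linarith
      · right; linarith
    rcases c0 (x 0) with h0 | h0 <;> rcases c0 (x 1) with h1 | h1 <;>
      rcases c0 (x 2) with h2 | h2
    · exact ⟨0, by norm_num, hx 1 1 1 (by norm_num) (by norm_num) (by norm_num) h0 h1 h2⟩
    · exact ⟨7, by norm_num, hx 1 1 (-1) (by norm_num) (by norm_num) (by norm_num) h0 h1 h2⟩
    · exact ⟨5, by norm_num, hx 1 (-1) 1 (by norm_num) (by norm_num) (by norm_num) h0 h1 h2⟩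
    · exact ⟨2, by norm_num, hx 1 (-1) (-1) (by norm_num) (by norm_num) (by norm_num) h0 h1 h2⟩
    · exact ⟨3, by norm_num, hx (-1) 1 1 (by norm_num) (by norm_num) (by norm_num) h0 h1 h2⟩
    · exact ⟨4, by norm_num, hx (-1) 1 (-1) (by norm_num) (by norm_num) (by norm_num) h0 h1 h2⟩
    · exact ⟨6, by norm_num, hx (-1) (-1) 1 (by norm_num) (by norm_num) (by norm_num) h0 h1 h2⟩
    · exact ⟨1, by norm_num, hx (-1) (-1) (-1) (by norm_num) (by norm_num) (by norm_num)
        h0 h1 h2⟩
  obtain ⟨o, ho, hx⟩ := hoct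
  have h := covOk_all
  rw [List.all_eq_true] at h
  obtain ⟨a, b, c, f, hchk, hin⟩ :=
    Tree.sound chkCov (covTree o) _ _ _ _ (h o (List.mem_range.2 ho)) hx
  simp only [chkCov, Bool.and_eq_true, decide_eq_true_eq, List.all_eq_true, List.mem_cons,
    List.not_mem_nil, or_false, forall_eq_or_imp, forall_eq] at hchk
  obtain ⟨hf, ⟨⟨a1, a2⟩, a3⟩, ⟨⟨b1, b2⟩, b3⟩, ⟨c1, c2⟩, c3⟩ := hchk
  exact ⟨f, hf, hin.rdot_nonneg a1 b1 c1, hin.rdot_nonneg a2 b2 c2, hin.rdot_nonneg a3 b3 c3⟩

lemma face_lt : ∀ f < 36, (face f).1 < 20 ∧ (face f).2.1 < 20 ∧ (face f).2.2 < 20 := by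
  decide +kernel

lemma face_det : ∀ f < 36, 0 < zdot (fa f) (zcross (fb f) (fc f)) := by
  decide +kernel

/-- first vertex of a face -/
def va (f : ℕ) : Fin 20 := Fin.ofNat 20 (face f).1
/-- second vertex of a face -/
def vb (f : ℕ) : Fin 20 := Fin.ofNat 20 (face f).2.1
/-- third vertex of a face -/
def vc (f : ℕ) : Fin 20 := Fin.ofNat 20 (face f).2.2

lemma va_val {f : ℕ} (hf : f < 36) : (va f).val = (face f).1 :=
  Nat.mod_eq_of_lt (face_lt f hf).1
lemma vb_val {f : ℕ} (hf : f < 36) : (vb f).val = (face f).2.1 :=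
  Nat.mod_eq_of_lt (face_lt f hf).2.1
lemma vc_val {f : ℕ} (hf : f < 36) : (vc f).val = (face f).2.2 :=
  Nat.mod_eq_of_lt (face_lt f hf).2.2

lemma face_adj : ∀ f < 36, gr.Adj (va f) (vb f) ∧ gr.Adj (vb f) (vc f) ∧ gr.Adj (vc f) (va f) := by
  decide +kernel

lemma fa_eq {f : ℕ} (hf : f < 36) : fa f = vert (va f) := by rw [va_val hf]; rfl
lemma fb_eq {f : ℕ} (hf : f < 36) : fb f = vert (vb f) := by rw [vb_val hf]; rfl
lemma fc_eq {f : ℕ} (hf : f < 36) : fc f = vert (vc f) := by rw [vc_val hf]; rfl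

/-- the open triangle of a face -/
def tri (f : ℕ) : Set S2 := openTri (fa f) (fb f) (fc f)

/-- open triangles are disjoint from the skeleton -/
lemma tri_disjoint_skeleton {f : ℕ} (hf : f < 36) : tri f ⊆ (skeleton gr pos)ᶜ := by
  rintro x hx ⟨u, v, huv, hxuv⟩
  obtain ⟨e, he, -, harc⟩ := adj_edge huv
  rw [harc] at hxuv
  have h0 := sep_face_edge
  rw [List.all_eq_true] at h0
  have h1 := h0 f (List.mem_range.2 hf)
  rw [List.all_eq_true] at h1
  obtain ⟨n, hn0, hn1, hn2⟩ := sep_elim (h1 e he)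
  simp only [evec, fvec, List.mem_cons, List.not_mem_nil, or_false, forall_eq_or_imp, forall_eq,
    exists_eq_or_imp, exists_eq_left] at hn0 hn1 hn2
  obtain ⟨r, s, t, hr, hs, ht, hcomb⟩ := openCone_comb (face_det f hf) hx
  obtain ⟨s', t', hs', ht', h'⟩ := hxuv
  have e1 : rdot n (x : E3) = r * zdot n (fa f) + s * zdot n (fb f) + t * zdot n (fc f) := by
    rw [hcomb, rdot_add, rdot_add, rdot_smul, rdot_smul, rdot_smul, rdot_toE, rdot_toE, rdot_toE]
  have e2 : rdot n (x : E3) = s' * zdot n (vert e.1) + t' * zdot n (vert e.2) := by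
    rw [h', rdot_comb]
  have a1 : (0 : ℝ) ≤ zdot n (fa f) := by exact_mod_cast hn0.1
  have a2 : (0 : ℝ) ≤ zdot n (fb f) := by exact_mod_cast hn0.2.1
  have a3 : (0 : ℝ) ≤ zdot n (fc f) := by exact_mod_cast hn0.2.2
  have b1 : (zdot n (vert e.1) : ℝ) ≤ 0 := by exact_mod_cast hn2.1
  have b2 : (zdot n (vert e.2) : ℝ) ≤ 0 := by exact_mod_cast hn2.2
  have d1 := mul_nonpos_of_nonneg_of_nonpos hs' b1
  have d2 := mul_nonpos_of_nonneg_of_nonpos ht' b2
  have c1 := mul_nonneg hr.le a1
  have c2 := mul_nonneg hs.le a2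
  have c3 := mul_nonneg ht.le a3
  rcases hn1 with hp | hp | hp
  · have p : (0 : ℝ) < zdot n (fa f) := by exact_mod_cast hp
    have := mul_pos hr p
    linarith
  · have p : (0 : ℝ) < zdot n (fb f) := by exact_mod_cast hp
    have := mul_pos hs p
    linarith
  · have p : (0 : ℝ) < zdot n (fc f) := by exact_mod_cast hp
    have := mul_pos ht p
    linarith

/-- an open cone of a face is disjoint from the closed cone of any other face -/
lemma openCone_disjoint {f f' : ℕ} (hf : f < 36) (hf' : f' < 36) (hne : f ≠ f') {x : E3}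
    (hx : x ∈ openCone (fa f) (fb f) (fc f)) (hx' : InCone (fa f') (fb f') (fc f') x) :
    False := by
  have h0 := sep_face_face
  rw [List.all_eq_true] at h0
  have h1 := h0 f (List.mem_range.2 hf)
  rw [List.all_eq_true] at h1
  have h2 := h1 f' (List.mem_range.2 hf')
  rw [Bool.or_eq_true, decide_eq_true_eq] at h2
  rcases h2 with h2 | h2
  · exact hne h2
  obtain ⟨n, hn0, hn1, hn2⟩ := sep_elim h2
  simp only [fvec, List.mem_cons, List.not_mem_nil, or_false, forall_eq_or_imp, forall_eq,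
    exists_eq_or_imp, exists_eq_left] at hn0 hn1 hn2
  obtain ⟨r, s, t, hr, hs, ht, hcomb⟩ := openCone_comb (face_det f hf) hx
  obtain ⟨r', s', t', hr', hs', ht', h'⟩ := hx'
  have e1 : rdot n x = r * zdot n (fa f) + s * zdot n (fb f) + t * zdot n (fc f) := by
    rw [hcomb, rdot_add, rdot_add, rdot_smul, rdot_smul, rdot_smul, rdot_toE, rdot_toE, rdot_toE]
  have e2 : rdot n x = r' * zdot n (fa f') + s' * zdot n (fb f') + t' * zdot n (fc f') := by
    rw [h', rdot_add, rdot_add, rdot_smul, rdot_smul, rdot_smul, rdot_toE, rdot_toE, rdot_toE]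
  have a1 : (0 : ℝ) ≤ zdot n (fa f) := by exact_mod_cast hn0.1
  have a2 : (0 : ℝ) ≤ zdot n (fb f) := by exact_mod_cast hn0.2.1
  have a3 : (0 : ℝ) ≤ zdot n (fc f) := by exact_mod_cast hn0.2.2
  have b1 : (zdot n (fa f') : ℝ) ≤ 0 := by exact_mod_cast hn2.1
  have b2 : (zdot n (fb f') : ℝ) ≤ 0 := by exact_mod_cast hn2.2.1
  have b3 : (zdot n (fc f') : ℝ) ≤ 0 := by exact_mod_cast hn2.2.2
  have d1 := mul_nonpos_of_nonneg_of_nonpos hr' b1
  have d2 := mul_nonpos_of_nonneg_of_nonpos hs' b2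
  have d3 := mul_nonpos_of_nonneg_of_nonpos ht' b3
  have c1 := mul_nonneg hr.le a1
  have c2 := mul_nonneg hs.le a2
  have c3 := mul_nonneg ht.le a3
  rcases hn1 with hp | hp | hp
  · have p : (0 : ℝ) < zdot n (fa f) := by exact_mod_cast hp
    have := mul_pos hr p
    linarith
  · have p : (0 : ℝ) < zdot n (fb f) := by exact_mod_cast hp
    have := mul_pos hs p
    linarith
  · have p : (0 : ℝ) < zdot n (fc f) := by exact_mod_cast hp
    have := mul_pos ht p
    linarith

/-- the boundary of a face consists of three edges -/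
lemma frontier_tri {f : ℕ} (hf : f < 36) : frontier (tri f) =
    arc (pos (va f)) (pos (vb f)) ∪ arc (pos (vb f)) (pos (vc f)) ∪
      arc (pos (vc f)) (pos (va f)) := by
  rw [tri, frontier_openTri (face_det f hf), closedTri_diff (face_det f hf), arc_eq, arc_eq,
    arc_eq, ← fa_eq hf, ← fb_eq hf, ← fc_eq hf]

lemma component_eq {f : ℕ} (hf : f < 36) {x : S2} (hx : x ∈ tri f) :
    connectedComponentIn (skeleton gr pos)ᶜ x = tri f := by
  have hsub := tri_disjoint_skeleton hf
  have hxs : x ∈ (skeleton gr pos)ᶜ := hsub hx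
  apply Subset.antisymm
  · apply isPreconnected_connectedComponentIn.subset_of_closure_inter_subset
      (openTri_isOpen (a := fa f) (b := fb f) (c := fc f))
    · exact ⟨x, mem_connectedComponentIn hxs, hx⟩
    · rintro y ⟨hy1, hy2⟩
      by_contra hy3
      have hyf : y ∈ frontier (tri f) := by
        rw [tri, frontier, (openTri_isOpen (a := fa f) (b := fb f) (c := fc f)).interior_eq]
        exact ⟨hy1, hy3⟩
      have hys := connectedComponentIn_subset _ _ hy2
      obtain ⟨h1, h2, h3⟩ := face_adj f hf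
      rw [frontier_tri hf] at hyf
      rcases hyf with (h | h) | h
      · exact hys ⟨_, _, h1, h⟩
      · exact hys ⟨_, _, h2, h⟩
      · exact hys ⟨_, _, h3, h⟩
  · exact openTri_isPreconnected.subset_connectedComponentIn hx hsub

/-- The example is a shortest-path triangulation. -/
theorem isSPT_example : IsSPT gr pos where
  four_le := by simp
  maximal_planar := by rw [gr_card]; simp
  not_antipodal := fun u v h => pos_not_antipodal h
  injective := pos_injective
  vertex_on_edge := by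
    intro u v w huv hw
    obtain ⟨e, he, h, harc⟩ := adj_edge huv
    rw [harc] at hw
    rcases vertex_edge_aux w he hw with h1 | h1 <;> rcases h with ⟨h2, h3⟩ | ⟨h2, h3⟩
    · left; exact Fin.ext (h1.trans h2)
    · right; exact Fin.ext (h1.trans h2)
    · right; exact Fin.ext (h1.trans h3)
    · left; exact Fin.ext (h1.trans h3)
  edges_meet := by
    intro u v u' v' huv huv' hne x hx
    obtain ⟨e, he, h, harc⟩ := adj_edge huv
    obtain ⟨e', he', h', harc'⟩ := adj_edge huv'
    rw [harc, harc'] at hx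
    have hee : e ≠ e' := by
      rintro rfl
      apply hne
      rw [Sym2.eq_iff]
      rcases h with ⟨h2, h3⟩ | ⟨h2, h3⟩ <;> rcases h' with ⟨h4, h5⟩ | ⟨h4, h5⟩
      · left; exact ⟨Fin.ext (h2.symm.trans h4), Fin.ext (h3.symm.trans h5)⟩
      · right; exact ⟨Fin.ext (h2.symm.trans h4), Fin.ext (h3.symm.trans h5)⟩
      · right; exact ⟨Fin.ext (h3.symm.trans h5), Fin.ext (h2.symm.trans h4)⟩
      · left; exact ⟨Fin.ext (h3.symm.trans h5), Fin.ext (h2.symm.trans h4)⟩
    obtain ⟨w, hw, hw1, hw2⟩ := edges_meet_aux he he' hee hx.1 hx.2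
    refine ⟨w, hw, ?_, ?_⟩
    · rcases hw1 with h1 | h1 <;> rcases h with ⟨h2, h3⟩ | ⟨h2, h3⟩
      · left; exact Fin.ext (h1.trans h2)
      · right; exact Fin.ext (h1.trans h2)
      · right; exact Fin.ext (h1.trans h3)
      · left; exact Fin.ext (h1.trans h3)
    · rcases hw2 with h1 | h1 <;> rcases h' with ⟨h2, h3⟩ | ⟨h2, h3⟩
      · left; exact Fin.ext (h1.trans h2)
      · right; exact Fin.ext (h1.trans h2)
      · right; exact Fin.ext (h1.trans h3)
      · left; exact Fin.ext (h1.trans h3)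
  face_triangle := by
    intro x hx
    obtain ⟨f, hf, hxf⟩ := cover (x : E3)
    obtain ⟨h1, h2, h3⟩ := face_adj f hf
    have hxt : x ∈ tri f := by
      by_contra hxt
      have hfr : x ∈ frontier (tri f) := by
        rw [tri, frontier_openTri (face_det f hf)]
        exact ⟨hxf, hxt⟩
      rw [frontier_tri hf] at hfr
      rcases hfr with (h | h) | h
      · exact hx ⟨_, _, h1, h⟩
      · exact hx ⟨_, _, h2, h⟩
      · exact hx ⟨_, _, h3, h⟩
    exact ⟨va f, vb f, vc f, h1, h2, h3, by rw [component_eq hf hxt, frontier_tri hf]⟩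

end Pool.Agent.MP_bf58c1_co
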