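import Pool.Agent.MP_bf58c1_co.Faces

/-!
# The linear-programming certificate
-/

namespace Pool.Agent.MP_bf58c1_co

open Set Filter Topology

/-- real version of `contrib` -/
noncomputable def rcontrib (f i : ℕ) (N : E3) : ℝ :=
  (if (face f).1 = i then rdot (zcross (fb f) (fc f)) N else 0) +
  (if (face f).2.1 = i then rdot (zcross (fc f) (fa f)) N else 0) +
  (if (face f).2.2 = i then rdot (zcross (fa f) (fb f)) N else 0)

/-- real version of `coef` -/
noncomputable def rcoef (w : List (ℕ × ℕ)) (i : ℕ) (N : E3) : ℝ :=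
  w.foldr (fun x acc => (x.2 : ℝ) * rcontrib x.1 i N + acc) 0

lemma rcontrib_toE (f i : ℕ) (a : Z3) : rcontrib f i (toE a) = (contrib f i a : ℝ) := by
  unfold rcontrib contrib
  rw [rdot_toE, rdot_toE, rdot_toE]
  push_cast
  split_ifs <;> simp

lemma rcontrib_comb (f i : ℕ) (x y z : ℝ) (A B C : E3) :
    rcontrib f i (x • A + y • B + z • C) =
      x * rcontrib f i A + y * rcontrib f i B + z * rcontrib f i C := by
  unfold rcontrib
  simp only [rdot_add, rdot_smul]
  split_ifs <;> ring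

lemma rcoef_toE (w : List (ℕ × ℕ)) (i : ℕ) (a : Z3) : rcoef w i (toE a) = (coef w i a : ℝ) := by
  induction w with
  | nil => simp [rcoef, coef]
  | cons x w ih =>
    have h1 : rcoef (x :: w) i (toE a) = (x.2 : ℝ) * rcontrib x.1 i (toE a) + rcoef w i (toE a) :=
      rfl
    have h2 : coef (x :: w) i a = (x.2 : ℤ) * contrib x.1 i a + coef w i a := rfl
    rw [h1, h2, ih, rcontrib_toE]
    push_cast
    ring

lemma rcoef_comb (w : List (ℕ × ℕ)) (i : ℕ) (x y z : ℝ) (A B C : E3) :
    rcoef w i (x • A + y • B + z • C) =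
      x * rcoef w i A + y * rcoef w i B + z * rcoef w i C := by
  induction w with
  | nil => simp [rcoef]
  | cons e w ih =>
    have h1 : ∀ N, rcoef (e :: w) i N = (e.2 : ℝ) * rcontrib e.1 i N + rcoef w i N :=
      fun _ => rfl
    rw [h1, h1, h1, h1, ih, rcontrib_comb]
    ring

/-- the linear form `D_f` -/
noncomputable def Dform (H : Fin 20 → ℝ) (N : E3) (f : ℕ) : ℝ :=
  H (va f) * rdot (zcross (fb f) (fc f)) N + H (vb f) * rdot (zcross (fc f) (fa f)) N +
    H (vc f) * rdot (zcross (fa f) (fb f)) N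

lemma sum_ite_vertex (H : Fin 20 → ℝ) (v : Fin 20) (r : ℝ) :
    ∑ i : Fin 20, H i * (if v.val = i.val then r else 0) = H v * r := by
  rw [Finset.sum_eq_single v]
  · simp
  · intro b _ hb
    rw [if_neg, mul_zero]
    intro h
    exact hb (Fin.ext h.symm)
  · intro h; exact absurd (Finset.mem_univ v) h

lemma sum_rcontrib (H : Fin 20 → ℝ) (N : E3) {f : ℕ} (hf : f < 36) :
    ∑ i : Fin 20, H i * rcontrib f i.val N = Dform H N f := by
  unfold rcontrib Dform
  simp only [mul_add]
  rw [Finset.sum_add_distrib, Finset.sum_add_distrib, ← va_val hf, ← vb_val hf, ← vc_val hf,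
    sum_ite_vertex, sum_ite_vertex, sum_ite_vertex]

lemma sum_rcoef (H : Fin 20 → ℝ) (N : E3) (w : List (ℕ × ℕ)) (hw : ∀ x ∈ w, x.1 < 36) :
    ∑ i : Fin 20, H i * rcoef w i.val N =
      w.foldr (fun x acc => (x.2 : ℝ) * Dform H N x.1 + acc) 0 := by
  induction w with
  | nil => simp [rcoef]
  | cons e w ih =>
    have h1 : ∀ i, rcoef (e :: w) i N = (e.2 : ℝ) * rcontrib e.1 i N + rcoef w i N :=
      fun _ => rfl
    simp only [h1, mul_add, List.foldr_cons]
    rw [Finset.sum_add_distrib, ih (fun x hx => hw x (List.mem_cons_of_mem _ hx)),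
      ← sum_rcontrib H N (hw e List.mem_cons_self), Finset.mul_sum]
    congr 1
    apply Finset.sum_congr rfl
    intro i _
    ring

lemma foldr_nonneg (D : ℕ → ℝ) (w : List (ℕ × ℕ)) (hw : ∀ x ∈ w, 0 < D x.1) :
    0 ≤ w.foldr (fun x acc => (x.2 : ℝ) * D x.1 + acc) 0 := by
  induction w with
  | nil => simp
  | cons e w ih =>
    rw [List.foldr_cons]
    have h1 := ih (fun x hx => hw x (List.mem_cons_of_mem _ hx))
    have h2 := hw e List.mem_cons_self
    positivity

lemma foldr_pos (D : ℕ → ℝ) (w : List (ℕ × ℕ)) (hne : w ≠ [])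
    (hw : ∀ x ∈ w, 0 < D x.1 ∧ 0 < x.2) :
    0 < w.foldr (fun x acc => (x.2 : ℝ) * D x.1 + acc) 0 := by
  cases w with
  | nil => exact absurd rfl hne
  | cons e w =>
    rw [List.foldr_cons]
    have h1 := foldr_nonneg D w (fun x hx => (hw x (List.mem_cons_of_mem _ hx)).1)
    have h2 := hw e List.mem_cons_self
    have h3 : (0 : ℝ) < (e.2 : ℝ) := by exact_mod_cast h2.2
    have h4 := mul_pos h3 h2.1
    linarith

/-- The certificate: for no pole direction `N` can all heights be negative while all faces which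
do not contain `N` are positively oriented. -/
theorem no_heights (N : E3) (H : Fin 20 → ℝ) (hH : ∀ v, H v < 0)
    (hpos : ∀ f < 36, N ∉ openCone (fa f) (fb f) (fc f) → 0 < Dform H N f) : False := by
  obtain ⟨f0, hf0, hN⟩ := cover N
  have hN' : InCone (fa f0) (fb f0) (fc f0) N := closedCone_inCone (face_det f0 hf0) hN
  have h := certOk_all
  rw [List.all_eq_true] at h
  obtain ⟨a, b, c, w, hchk, hin⟩ :=
    Tree.sound (chkCert f0) (certTree f0) _ _ _ _ (h f0 (List.mem_range.2 hf0)) hN'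
  simp only [chkCert, Bool.and_eq_true, decide_eq_true_eq, List.all_eq_true, List.mem_cons,
    List.not_mem_nil, or_false, forall_eq_or_imp, forall_eq, List.mem_range, Bool.not_eq_true',
    List.isEmpty_eq_false_iff] at hchk
  obtain ⟨⟨hne, hw⟩, ha, hb, hc⟩ := hchk
  obtain ⟨x, y, z, hx, hy, hz, hNe⟩ := hin
  have hcoef : ∀ i : Fin 20, 0 ≤ rcoef w i.val N := by
    intro i
    rw [hNe, rcoef_comb, rcoef_toE, rcoef_toE, rcoef_toE]
    have h1 : (0 : ℝ) ≤ (coef w i.val a : ℝ) := by exact_mod_cast ha i.val i.isLt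
    have h2 : (0 : ℝ) ≤ (coef w i.val b : ℝ) := by exact_mod_cast hb i.val i.isLt
    have h3 : (0 : ℝ) ≤ (coef w i.val c : ℝ) := by exact_mod_cast hc i.val i.isLt
    positivity
  have hsum := sum_rcoef H N w (fun x hx => (hw x hx).1.1)
  have hle : ∑ i : Fin 20, H i * rcoef w i.val N ≤ 0 :=
    Finset.sum_nonpos fun i _ => mul_nonpos_of_nonpos_of_nonneg (hH i).le (hcoef i)
  have hgt := foldr_pos (Dform H N) w hne (fun x hx => by
    obtain ⟨⟨h1, h2⟩, h3⟩ := hw x hx
    refine ⟨hpos x.1 h1 fun hN2 => ?_, h3⟩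
    exact openCone_disjoint h1 hf0 h2 hN2 hN')
  linarith

end Pool.Agent.MP_bf58c1_co
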