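import Pool.Agent.MP_bf58c1_co.Sep

/-!
# Geometry of spherical triangles with integer direction vectors
-/

namespace Pool.Agent.MP_bf58c1_co

open Set Filter Topology

lemma zdot_self_pos_toE_ne {a : Z3} (h : 0 < zdot a a) : toE a ≠ 0 := by
  intro h0
  have h1 : rdot a (toE a) = (zdot a a : ℝ) := rdot_toE a a
  rw [h0] at h1
  have h2 : rdot a 0 = 0 := by simp [rdot]
  rw [h2] at h1
  have : (0 : ℝ) < (zdot a a : ℝ) := by exact_mod_cast h
  linarith

lemma E3.norm_of_S2 (x : S2) : ‖(x : E3)‖ = 1 := by simp [norm_eq_of_mem_sphere]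

/-- a unit vector which is a nonnegative multiple of a nonzero vector -/
lemma eq_normalized {a : E3} (ha : a ≠ 0) {x : E3} (hx : ‖x‖ = 1) {c : ℝ} (hc : 0 ≤ c)
    (h : x = c • a) : x = ‖a‖⁻¹ • a := by
  have hn : 0 < ‖a‖ := norm_pos_iff.2 ha
  have h1 : c * ‖a‖ = 1 := by
    rw [h, norm_smul, Real.norm_of_nonneg hc] at hx; exact hx
  rw [h]
  congr 1
  field_simp
  exact h1

lemma cramer (a b c : Z3) (x : E3) :
    ((zdot a (zcross b c) : ℤ) : ℝ) • x = rdot (zcross b c) x • toE a +
      rdot (zcross c a) x • toE b + rdot (zcross a b) x • toE c := by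
  apply E3.ext' <;> simp [rdot, zdot, zcross] <;> ring

lemma rdot_continuous (n : Z3) : Continuous fun x : E3 => rdot n x := by
  unfold rdot; fun_prop

lemma rdot_comb (n : Z3) (a b : Z3) (s t : ℝ) :
    rdot n (s • toE a + t • toE b) = s * zdot n a + t * zdot n b := by
  rw [rdot_add, rdot_smul, rdot_smul, rdot_toE, rdot_toE]

section Triangle

variable (a b c : Z3)

/-- open cone of a triangle -/
def openCone : Set E3 :=
  {x | 0 < rdot (zcross b c) x ∧ 0 < rdot (zcross c a) x ∧ 0 < rdot (zcross a b) x}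

/-- closed cone of a triangle -/
def closedCone : Set E3 :=
  {x | 0 ≤ rdot (zcross b c) x ∧ 0 ≤ rdot (zcross c a) x ∧ 0 ≤ rdot (zcross a b) x}

/-- open spherical triangle -/
def openTri : Set S2 := {x | (x : E3) ∈ openCone a b c}

/-- closed spherical triangle -/
def closedTri : Set S2 := {x | (x : E3) ∈ closedCone a b c}

variable {a b c}

lemma openCone_convex : Convex ℝ (openCone a b c) := by
  intro x hx y hy s t hs ht hst
  have key : ∀ n : Z3, 0 < rdot n x → 0 < rdot n y → 0 < rdot n (s • x + t • y) := by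
    intro n h1 h2
    rw [rdot_add, rdot_smul, rdot_smul]
    rcases hs.eq_or_lt with h0 | h0
    · have : t = 1 := by rw [← h0] at hst; linarith
      rw [← h0, this]; linarith
    · have : 0 < s * rdot n x := mul_pos h0 h1
      have : 0 ≤ t * rdot n y := mul_nonneg ht h2.le
      linarith
  exact ⟨key _ hx.1 hy.1, key _ hx.2.1 hy.2.1, key _ hx.2.2 hy.2.2⟩

lemma openCone_smul {x : E3} (hx : x ∈ openCone a b c) {r : ℝ} (hr : 0 < r) :
    r • x ∈ openCone a b c := by
  refine ⟨?_, ?_, ?_⟩ <;> rw [rdot_smul]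
  · exact mul_pos hr hx.1
  · exact mul_pos hr hx.2.1
  · exact mul_pos hr hx.2.2

lemma zero_notMem_openCone : (0 : E3) ∉ openCone a b c := by
  intro h
  have := h.1
  simp [rdot] at this

lemma openTri_isOpen : IsOpen (openTri a b c) := by
  have h : ∀ n : Z3, IsOpen {x : S2 | 0 < rdot n (x : E3)} := fun n =>
    isOpen_lt continuous_const ((rdot_continuous n).comp continuous_subtype_val)
  exact (h _).inter ((h _).inter (h _))

lemma closedTri_isClosed : IsClosed (closedTri a b c) := by
  have h : ∀ n : Z3, IsClosed {x : S2 | 0 ≤ rdot n (x : E3)} := fun n =>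
    isClosed_le continuous_const ((rdot_continuous n).comp continuous_subtype_val)
  exact (h _).inter ((h _).inter (h _))

lemma openTri_subset_closedTri : openTri a b c ⊆ closedTri a b c :=
  fun _ h => ⟨h.1.le, h.2.1.le, h.2.2.le⟩

lemma image_val_openTri : (Subtype.val '' openTri a b c : Set E3) =
    (fun x : E3 => ‖x‖⁻¹ • x) '' openCone a b c := by
  ext y
  constructor
  · rintro ⟨x, hx, rfl⟩
    exact ⟨x, hx, by simp⟩
  · rintro ⟨x, hx, rfl⟩
    have hx0 : x ≠ 0 := fun h => zero_notMem_openCone (h ▸ hx)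
    have hn : 0 < ‖x‖ := norm_pos_iff.2 hx0
    refine ⟨⟨‖x‖⁻¹ • x, ?_⟩, openCone_smul hx (inv_pos.2 hn), rfl⟩
    simp [norm_smul, hn.ne']

lemma openTri_isPreconnected : IsPreconnected (openTri a b c) := by
  rw [← Topology.IsInducing.subtypeVal.isPreconnected_image, image_val_openTri]
  apply IsPreconnected.image openCone_convex.isPreconnected
  intro x hx
  have hx0 : x ≠ 0 := fun h => zero_notMem_openCone (h ▸ hx)
  apply ContinuousAt.continuousWithinAt
  exact (continuous_norm.continuousAt.inv₀ (norm_ne_zero_iff.2 hx0)).smul continuousAt_id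

lemma zdot_cyc1 : zdot b (zcross c a) = zdot a (zcross b c) := by
  simp [zdot, zcross]; ring

lemma zdot_cyc2 : zdot c (zcross a b) = zdot a (zcross b c) := by
  simp [zdot, zcross]; ring

lemma zdot_comm' (a b : Z3) : zdot a b = zdot b a := by
  simp [zdot]; ring

lemma zdot_cross_left (a b : Z3) : zdot (zcross a b) a = 0 := by
  simp [zdot, zcross]; ring

lemma zdot_cross_right (a b : Z3) : zdot (zcross a b) b = 0 := by
  simp [zdot, zcross]; ring

lemma rdot_comb3 (x y z : ℝ) :
    rdot (zcross b c) (x • toE a + y • toE b + z • toE c) = x * (zdot a (zcross b c) : ℤ) ∧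
    rdot (zcross c a) (x • toE a + y • toE b + z • toE c) = y * (zdot a (zcross b c) : ℤ) ∧
    rdot (zcross a b) (x • toE a + y • toE b + z • toE c) = z * (zdot a (zcross b c) : ℤ) := by
  refine ⟨?_, ?_, ?_⟩
  · rw [rdot_add, rdot_add, rdot_smul, rdot_smul, rdot_smul, rdot_toE, rdot_toE, rdot_toE,
      zdot_cross_left, zdot_cross_right, zdot_comm']
    simp
  · rw [rdot_add, rdot_add, rdot_smul, rdot_smul, rdot_smul, rdot_toE, rdot_toE, rdot_toE,
      zdot_cross_left, zdot_cross_right, zdot_comm' (zcross c a) b, zdot_cyc1]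
    simp
  · rw [rdot_add, rdot_add, rdot_smul, rdot_smul, rdot_smul, rdot_toE, rdot_toE, rdot_toE,
      zdot_cross_left, zdot_cross_right, zdot_comm' (zcross a b) c, zdot_cyc2]
    simp

lemma cramer' (hD : ((zdot a (zcross b c) : ℤ) : ℝ) ≠ 0) (x : E3) :
    x = (rdot (zcross b c) x / (zdot a (zcross b c) : ℤ)) • toE a +
      (rdot (zcross c a) x / (zdot a (zcross b c) : ℤ)) • toE b +
      (rdot (zcross a b) x / (zdot a (zcross b c) : ℤ)) • toE c := by
  have h := cramer a b c x
  calc x = ((zdot a (zcross b c) : ℤ) : ℝ)⁻¹ • (((zdot a (zcross b c) : ℤ) : ℝ) • x) := by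
        rw [smul_smul, inv_mul_cancel₀ hD, one_smul]
    _ = ((zdot a (zcross b c) : ℤ) : ℝ)⁻¹ • (rdot (zcross b c) x • toE a +
      rdot (zcross c a) x • toE b + rdot (zcross a b) x • toE c) := by rw [h]
    _ = _ := by
      rw [smul_add, smul_add, smul_smul, smul_smul, smul_smul, div_eq_inv_mul, div_eq_inv_mul,
        div_eq_inv_mul]

/-- a vector in the open cone is a positive combination of the corners -/
lemma openCone_comb (hdet : 0 < zdot a (zcross b c)) {x : E3} (hx : x ∈ openCone a b c) :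
    ∃ r s t : ℝ, 0 < r ∧ 0 < s ∧ 0 < t ∧ x = r • toE a + s • toE b + t • toE c := by
  have hD : (0 : ℝ) < (zdot a (zcross b c) : ℤ) := by exact_mod_cast hdet
  exact ⟨_, _, _, div_pos hx.1 hD, div_pos hx.2.1 hD, div_pos hx.2.2 hD, cramer' hD.ne' x⟩

lemma closedCone_inCone (hdet : 0 < zdot a (zcross b c)) {x : E3} (hx : x ∈ closedCone a b c) :
    InCone a b c x := by
  have hD : (0 : ℝ) < (zdot a (zcross b c) : ℤ) := by exact_mod_cast hdet
  exact ⟨_, _, _, div_nonneg hx.1 hD.le, div_nonneg hx.2.1 hD.le, div_nonneg hx.2.2 hD.le,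
    cramer' hD.ne' x⟩

/-- the sum of the corners is in the open cone -/
lemma sum_mem_openCone (hdet : 0 < zdot a (zcross b c)) :
    toE a + toE b + toE c ∈ openCone a b c := by
  have hD : (0 : ℝ) < (zdot a (zcross b c) : ℤ) := by exact_mod_cast hdet
  have h := rdot_comb3 (a := a) (b := b) (c := c) 1 1 1
  simp only [one_smul, one_mul] at h
  exact ⟨h.1 ▸ hD, h.2.1 ▸ hD, h.2.2 ▸ hD⟩

lemma closure_openTri (hdet : 0 < zdot a (zcross b c)) :
    closure (openTri a b c) = closedTri a b c := by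
  apply Subset.antisymm
  · exact closure_minimal openTri_subset_closedTri closedTri_isClosed
  · intro x hx
    rw [Topology.IsInducing.subtypeVal.closure_eq_preimage_closure_image, image_val_openTri]
    show (x : E3) ∈ closure _
    set s : E3 := toE a + toE b + toE c with hs
    have hsC : s ∈ openCone a b c := sum_mem_openCone hdet
    have hx1 : ‖(x : E3)‖ = 1 := E3.norm_of_S2 x
    let φ : ℝ → E3 := fun ε => ‖(x : E3) + ε • s‖⁻¹ • ((x : E3) + ε • s)
    have hφ0 : φ 0 = (x : E3) := by simp [φ, hx1]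
    have hcont : ContinuousAt φ 0 := by
      have h1 : ContinuousAt (fun ε : ℝ => (x : E3) + ε • s) 0 := by fun_prop
      have h2 : ContinuousAt (fun ε : ℝ => ‖(x : E3) + ε • s‖⁻¹) 0 := by
        apply ContinuousAt.inv₀ h1.norm
        simp [hx1]
      exact h2.smul h1
    have ht : Tendsto φ (𝓝[>] 0) (𝓝 (x : E3)) := by
      have := hcont.tendsto
      rw [hφ0] at this
      exact this.mono_left nhdsWithin_le_nhds
    apply mem_closure_of_tendsto ht
    filter_upwards [self_mem_nhdsWithin] with ε hε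
    have hε' : 0 < ε := hε
    refine ⟨(x : E3) + ε • s, ?_, rfl⟩
    refine ⟨?_, ?_, ?_⟩
    · rw [rdot_add, rdot_smul]
      have h1 := hx.1
      have h2 := mul_pos hε' hsC.1
      linarith
    · rw [rdot_add, rdot_smul]
      have h1 := hx.2.1
      have h2 := mul_pos hε' hsC.2.1
      linarith
    · rw [rdot_add, rdot_smul]
      have h1 := hx.2.2
      have h2 := mul_pos hε' hsC.2.2
      linarith

lemma frontier_openTri (hdet : 0 < zdot a (zcross b c)) :
    frontier (openTri a b c) = closedTri a b c \ openTri a b c := by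
  rw [frontier, closure_openTri hdet, openTri_isOpen.interior_eq]

/-- points of the sphere in the closed cone over two vectors -/
def zarc (a b : Z3) : Set S2 :=
  {x | ∃ s t : ℝ, 0 ≤ s ∧ 0 ≤ t ∧ (x : E3) = s • toE a + t • toE b}

lemma closedTri_diff (hdet : 0 < zdot a (zcross b c)) :
    closedTri a b c \ openTri a b c = zarc a b ∪ zarc b c ∪ zarc c a := by
  have hD : (0 : ℝ) < (zdot a (zcross b c) : ℤ) := by exact_mod_cast hdet
  ext x
  constructor
  · rintro ⟨hx, hx'⟩
    have hc := cramer' hD.ne' (x : E3)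
    by_cases h1 : rdot (zcross b c) (x : E3) = 0
    · left; right
      refine ⟨_, _, div_nonneg hx.2.1 hD.le, div_nonneg hx.2.2 hD.le, ?_⟩
      rw [h1, zero_div, zero_smul, zero_add] at hc
      exact hc
    by_cases h2 : rdot (zcross c a) (x : E3) = 0
    · right
      refine ⟨_, _, div_nonneg hx.2.2 hD.le, div_nonneg hx.1 hD.le, ?_⟩
      rw [h2, zero_div, zero_smul, add_zero] at hc
      rw [add_comm]
      exact hc
    by_cases h3 : rdot (zcross a b) (x : E3) = 0
    · left; left
      refine ⟨_, _, div_nonneg hx.1 hD.le, div_nonneg hx.2.1 hD.le, ?_⟩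
      rw [h3, zero_div, zero_smul, add_zero] at hc
      exact hc
    exact absurd ⟨lt_of_le_of_ne hx.1 (Ne.symm h1), lt_of_le_of_ne hx.2.1 (Ne.symm h2),
      lt_of_le_of_ne hx.2.2 (Ne.symm h3)⟩ hx'
  · rintro ((⟨s, t, hs, ht, h⟩ | ⟨s, t, hs, ht, h⟩) | ⟨s, t, hs, ht, h⟩)
    · have h' := rdot_comb3 (a := a) (b := b) (c := c) s t 0
      rw [zero_smul, add_zero, ← h, zero_mul] at h'
      refine ⟨⟨?_, ?_, h'.2.2.ge⟩, fun hx => hx.2.2.ne' h'.2.2⟩
      · rw [h'.1]; positivity
      · rw [h'.2.1]; positivity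
    · have h' := rdot_comb3 (a := a) (b := b) (c := c) 0 s t
      rw [zero_smul, zero_add, ← h, zero_mul] at h'
      refine ⟨⟨h'.1.ge, ?_, ?_⟩, fun hx => hx.1.ne' h'.1⟩
      · rw [h'.2.1]; positivity
      · rw [h'.2.2]; positivity
    · have h' := rdot_comb3 (a := a) (b := b) (c := c) t 0 s
      rw [zero_smul, add_zero, add_comm, ← h, zero_mul] at h'
      refine ⟨⟨?_, h'.2.1.ge, ?_⟩, fun hx => hx.2.1.ne' h'.2.1⟩
      · rw [h'.1]; positivity
      · rw [h'.2.2]; positivity

end Triangle

end Pool.Agent.MP_bf58c1_co
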