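import Pool.Agent.MP_bf58c1_co.Final

/-!
# Longitudinal morphs: the sign lemma and the main theorem
-/

namespace Pool.Agent.MP_bf58c1_co

open Set Filter Topology

/-- determinant of three vectors -/
noncomputable def det3 (a b c : E3) : ℝ :=
  a 0 * (b 1 * c 2 - b 2 * c 1) - a 1 * (b 0 * c 2 - b 2 * c 0) + a 2 * (b 0 * c 1 - b 1 * c 0)

lemma det3_dep {a b c : E3} (h : det3 a b c = 0) :
    ∃ α β γ : ℝ, ¬ (α = 0 ∧ β = 0 ∧ γ = 0) ∧ α • a + β • b + γ • c = 0 := by
  let M : Matrix (Fin 3) (Fin 3) ℝ := fun i j => (![a, b, c] j) i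
  have hM : M.det = 0 := by
    rw [Matrix.det_fin_three, ← h]
    simp [M, det3]
    ring
  obtain ⟨v, hv, hv0⟩ := Matrix.exists_mulVec_eq_zero_iff.2 hM
  refine ⟨v 0, v 1, v 2, ?_, ?_⟩
  · rintro ⟨h0, h1, h2⟩
    apply hv
    ext i; fin_cases i
    · exact h0
    · exact h1
    · exact h2
  · have key : ∀ i : Fin 3, v 0 * a i + v 1 * b i + v 2 * c i = 0 := by
      intro i
      have := congrFun hv0 i
      simp only [Matrix.mulVec, dotProduct, Fin.sum_univ_three, Pi.zero_apply] at this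
      simp [M] at this
      linarith
    apply E3.ext' <;> simp [key]

lemma two_dep {a b : S2} (h1 : a ≠ b) (h2 : (a : E3) ≠ -(b : E3)) {α β : ℝ}
    (h : α • (a : E3) + β • (b : E3) = 0) : α = 0 ∧ β = 0 := by
  have ha := E3.norm_of_S2 a
  have hb := E3.norm_of_S2 b
  have h3 : α • (a : E3) = -(β • (b : E3)) := eq_neg_of_add_eq_zero_left h
  have h4 : |α| = |β| := by
    have := congrArg norm h3
    rwa [norm_neg, norm_smul, norm_smul, ha, hb, mul_one, mul_one, Real.norm_eq_abs,
      Real.norm_eq_abs] at this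
  have hα : α = 0 := by
    by_contra hα
    rcases abs_eq_abs.1 h4 with h5 | h5
    · apply h2
      rw [← h5, ← smul_neg] at h3
      exact smul_right_injective E3 hα h3
    · apply h1
      have h6 : β = -α := by linarith
      rw [h6, neg_smul, neg_neg] at h3
      exact Subtype.ext (smul_right_injective E3 hα h3)
  refine ⟨hα, ?_⟩
  rw [hα, abs_zero] at h4
  exact abs_eq_zero.1 h4.symm

/-- a positive, negative sign pattern forces a vertex on an edge -/
lemma mem_arc_of_signs {a b c : S2} {α β γ : ℝ} (hα : 0 ≤ α) (hβ : 0 ≤ β) (hγ : γ < 0)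
    (h : α • (a : E3) + β • (b : E3) + γ • (c : E3) = 0) : c ∈ arc a b := by
  refine ⟨α * (-γ)⁻¹, β * (-γ)⁻¹, ?_, ?_, ?_⟩
  · have : 0 < -γ := by linarith
    positivity
  · have : 0 < -γ := by linarith
    positivity
  · have h1 : α • (a : E3) + β • (b : E3) = (-γ) • (c : E3) := by
      rw [neg_smul]; exact eq_neg_of_add_eq_zero_left h
    have h2 : (-γ) ≠ 0 := by linarith
    calc (c : E3) = (-γ)⁻¹ • ((-γ) • (c : E3)) := by
          rw [smul_smul, inv_mul_cancel₀ h2, one_smul]
      _ = (-γ)⁻¹ • (α • (a : E3) + β • (b : E3)) := by rw [h1]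
      _ = _ := by rw [smul_add, smul_smul, smul_smul, mul_comm α, mul_comm β]

lemma arc_comm (a b : S2) : arc a b = arc b a := by
  ext x
  constructor <;> rintro ⟨s, t, hs, ht, h⟩ <;> exact ⟨t, s, ht, hs, by rw [h, add_comm]⟩

/-- if the three corners of a triangle become coplanar, then the origin is a positive combination
of them -/
lemma same_sign {a b c : S2} (hab : a ≠ b) (hbc : b ≠ c) (hca : c ≠ a)
    (hab' : (a : E3) ≠ -(b : E3)) (hbc' : (b : E3) ≠ -(c : E3)) (hca' : (c : E3) ≠ -(a : E3))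
    (h1 : c ∉ arc a b) (h2 : a ∉ arc b c) (h3 : b ∉ arc c a)
    (hdet : det3 (a : E3) (b : E3) (c : E3) = 0) :
    ∃ α β γ : ℝ, 0 < α ∧ 0 < β ∧ 0 < γ ∧ α • (a : E3) + β • (b : E3) + γ • (c : E3) = 0 := by
  obtain ⟨α, β, γ, hne, h⟩ := det3_dep hdet
  have hα : α ≠ 0 := by
    rintro rfl
    rw [zero_smul, zero_add] at h
    obtain ⟨h4, h5⟩ := two_dep hbc hbc' h
    exact hne ⟨rfl, h4, h5⟩
  have hβ : β ≠ 0 := by
    rintro rfl
    rw [zero_smul, add_zero, add_comm] at h
    obtain ⟨h4, h5⟩ := two_dep hca hca' h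
    exact hne ⟨h5, rfl, h4⟩
  have hγ : γ ≠ 0 := by
    rintro rfl
    rw [zero_smul, add_zero] at h
    obtain ⟨h4, h5⟩ := two_dep hab hab' h
    exact hne ⟨h4, h5, rfl⟩
  have hneg : (-α) • (a : E3) + (-β) • (b : E3) + (-γ) • (c : E3) = 0 := by
    rw [neg_smul, neg_smul, neg_smul, ← neg_add, ← neg_add, h, neg_zero]
  have rot : ∀ {α β γ : ℝ} {a b c : S2}, α • (a : E3) + β • (b : E3) + γ • (c : E3) = 0 →
      β • (b : E3) + γ • (c : E3) + α • (a : E3) = 0 := by
    intro α β γ a b c h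
    calc β • (b : E3) + γ • (c : E3) + α • (a : E3)
        = α • (a : E3) + β • (b : E3) + γ • (c : E3) := by abel
      _ = 0 := h
  rcases lt_or_gt_of_ne hα with hα | hα <;> rcases lt_or_gt_of_ne hβ with hβ | hβ <;>
    rcases lt_or_gt_of_ne hγ with hγ | hγ
  · exact ⟨-α, -β, -γ, by linarith, by linarith, by linarith, hneg⟩
  · exact absurd (mem_arc_of_signs (by linarith) (by linarith) (by linarith) hneg) h1
  · exact absurd (mem_arc_of_signs (by linarith) (by linarith) (by linarith) (rot (rot hneg))) h3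
  · exact absurd (mem_arc_of_signs (by linarith) (by linarith) (by linarith) (rot h)) h2
  · exact absurd (mem_arc_of_signs (by linarith) (by linarith) (by linarith) (rot hneg)) h2
  · exact absurd (mem_arc_of_signs (by linarith) (by linarith) (by linarith) (rot (rot h))) h3
  · exact absurd (mem_arc_of_signs (by linarith) (by linarith) (by linarith) h) h1
  · exact ⟨α, β, γ, hα, hβ, hγ, h⟩

/-- the north pole direction -/
noncomputable def ez : E3 := !₂[0, 0, 1]

lemma rdot_cross_eq (R : E3 ≃ₗᵢ[ℝ] E3)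
    (hR : ∀ a b c : E3, det3 (R a) (R b) (R c) = det3 a b c) (a b : Z3) :
    rdot (zcross a b) (R.symm ez) =
      (R (toE a)) 0 * (R (toE b)) 1 - (R (toE a)) 1 * (R (toE b)) 0 := by
  have h := hR (R.symm ez) (toE a) (toE b)
  rw [R.apply_symm_apply] at h
  have h1 : det3 (R.symm ez) (toE a) (toE b) = rdot (zcross a b) (R.symm ez) := by
    simp [det3, rdot, zcross]; ring
  have h2 : det3 ez (R (toE a)) (R (toE b)) =
      (R (toE a)) 0 * (R (toE b)) 1 - (R (toE a)) 1 * (R (toE b)) 0 := by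
    simp [det3, ez]
  rw [← h1, ← h, h2]

/-- The image of a drawing under a linear isometry `R`. -/
noncomputable def rotateR {V : Type} (R : E3 ≃ₗᵢ[ℝ] E3) (p : V → S2) : V → S2 :=
  fun v => ⟨R (p v), by simp [norm_eq_of_mem_sphere]⟩

/-- longitude coordinates of a point of a longitudinal morph -/
lemma longitude_coords {R : E3 ≃ₗᵢ[ℝ] E3} {v : Fin 20} {y : S2}
    (hy : y ∈ longitude (rotateR R pos v)) :
    ∃ c : ℝ, 0 < c ∧ (y : E3) 0 = c * (R (toE (vert v))) 0 ∧
      (y : E3) 1 = c * (R (toE (vert v))) 1 := by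
  obtain ⟨c, hc, h0, h1⟩ := hy
  have hn := norm_vert_pos v
  refine ⟨c * ‖toE (vert v)‖⁻¹, by positivity, ?_, ?_⟩
  · rw [h0]
    show c * (R (pos v : E3)) 0 = _
    rw [coe_pos, map_smul]
    simp [mul_assoc]
  · rw [h1]
    show c * (R (pos v : E3)) 1 = _
    rw [coe_pos, map_smul]
    simp [mul_assoc]

/-- No rotation of the example is sinkable, for rotations given as isometries. -/
theorem not_sinkable_isometry (R : E3 ≃ₗᵢ[ℝ] E3)
    (hR : ∀ a b c : E3, det3 (R a) (R b) (R c) = det3 a b c) :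
    ¬ Sinkable gr (rotateR R pos) := by
  rintro ⟨-, q, ⟨hqc, hqS⟩, hq0, -, hql, hq1⟩
  set N : E3 := R.symm ez with hN
  -- coordinates at each time
  have hcoord : ∀ t v, ∃ c : ℝ, 0 < c ∧ (q t v : E3) 0 = c * (R (toE (vert v))) 0 ∧
      (q t v : E3) 1 = c * (R (toE (vert v))) 1 := fun t v => longitude_coords (hql t v)
  choose c hc hc0 hc1 using hcoord
  -- final heights
  let H : Fin 20 → ℝ := fun v => (q 1 v : E3) 2 / c 1 v
  have hH : ∀ v, H v < 0 := fun v => div_neg_of_neg_of_pos (hq1 v) (hc 1 v)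
  have hz : ∀ v, (q 1 v : E3) 2 = c 1 v * H v := by
    intro v
    have := (hc 1 v).ne'
    simp only [H]
    field_simp
  refine no_heights N H hH ?_
  intro f hf hNf
  obtain ⟨A1, A2, A3⟩ := face_adj f hf
  have hdetpos := face_det f hf
  have hka := rdot_cross_eq R hR (fb f) (fc f)
  have hkb := rdot_cross_eq R hR (fc f) (fa f)
  have hkc := rdot_cross_eq R hR (fa f) (fb f)
  rw [← hN] at hka hkb hkc
  -- the determinant along the morph
  let g : unitInterval → ℝ := fun t => det3 (q t (va f)) (q t (vb f)) (q t (vc f))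
  have hcomp : ∀ v, ∀ i : Fin 3, Continuous fun t => (q t v : E3) i := by
    intro v i
    have h1 : Continuous fun t => (q t v : E3) := continuous_subtype_val.comp (hqc v)
    exact (EuclideanSpace.proj (𝕜 := ℝ) i).continuous.comp h1
  have hgc : Continuous g := by
    have := hcomp
    simp only [g, det3]
    fun_prop
  -- final determinant
  have hg1 : g 1 = c 1 (va f) * c 1 (vb f) * c 1 (vc f) * Dform H N f := by
    simp only [g, det3, Dform, hka, hkb, hkc]
    simp only [hc0, hc1, hz, fa_eq hf, fb_eq hf, fc_eq hf]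
    ring
  have hcp : 0 < c 1 (va f) * c 1 (vb f) * c 1 (vc f) :=
    mul_pos (mul_pos (hc 1 _) (hc 1 _)) (hc 1 _)
  by_contra hD
  push Not at hD
  have hg1' : g 1 ≤ 0 := by
    rw [hg1]
    exact mul_nonpos_of_nonneg_of_nonpos hcp.le hD
  -- initial determinant
  have hg0 : 0 < g 0 := by
    have e : ∀ v, (q 0 v : E3) = R (pos v : E3) := by
      intro v; rw [hq0]; rfl
    have e2 : g 0 = det3 (pos (va f)) (pos (vb f)) (pos (vc f)) := by
      simp only [g]
      rw [e, e, e, hR]
    have e3 : det3 (pos (va f)) (pos (vb f)) (pos (vc f)) =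
        ‖toE (vert (va f))‖⁻¹ * ‖toE (vert (vb f))‖⁻¹ * ‖toE (vert (vc f))‖⁻¹ *
          (zdot (fa f) (zcross (fb f) (fc f)) : ℤ) := by
      rw [coe_pos, coe_pos, coe_pos, fa_eq hf, fb_eq hf, fc_eq hf]
      simp [det3, zdot, zcross]
      ring
    rw [e2, e3]
    have h1 := norm_vert_pos (va f)
    have h2 := norm_vert_pos (vb f)
    have h3 := norm_vert_pos (vc f)
    have h4 : (0 : ℝ) < (zdot (fa f) (zcross (fb f) (fc f)) : ℤ) := by exact_mod_cast hdetpos
    positivity
  obtain ⟨t, ht⟩ := mem_range_of_exists_le_of_exists_ge hgc ⟨1, hg1'⟩ ⟨0, hg0.le⟩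
  have hS := hqS t
  have ne1 : va f ≠ vb f := A1.ne
  have ne2 : vb f ≠ vc f := A2.ne
  have ne3 : vc f ≠ va f := A3.ne
  obtain ⟨α, β, γ, hα, hβ, hγ, hcomb⟩ := same_sign (hS.injective.ne ne1) (hS.injective.ne ne2)
    (hS.injective.ne ne3) (hS.not_antipodal _ _ A1) (hS.not_antipodal _ _ A2)
    (hS.not_antipodal _ _ A3)
    (fun h => by
      rcases hS.vertex_on_edge _ _ _ A1 h with h | h
      · exact ne3 h
      · exact ne2 h.symm)
    (fun h => by
      rcases hS.vertex_on_edge _ _ _ A2 h with h | h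
      · exact ne1 h
      · exact ne3 h.symm)
    (fun h => by
      rcases hS.vertex_on_edge _ _ _ A3 h with h | h
      · exact ne2 h
      · exact ne1 h.symm) ht
  -- the horizontal parts
  set α' := α * c t (va f) with hα'
  set β' := β * c t (vb f) with hβ'
  set γ' := γ * c t (vc f) with hγ'
  have pα : 0 < α' := mul_pos hα (hc t _)
  have pβ : 0 < β' := mul_pos hβ (hc t _)
  have pγ : 0 < γ' := mul_pos hγ (hc t _)
  set W : E3 := α' • R (toE (fa f)) + β' • R (toE (fb f)) + γ' • R (toE (fc f)) with hW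
  have hW0 : W 0 = 0 := by
    have h := congrArg (fun x : E3 => x 0) hcomb
    simp only [PiLp.add_apply, PiLp.smul_apply, smul_eq_mul, PiLp.zero_apply, hc0] at h
    simp only [hW, PiLp.add_apply, PiLp.smul_apply, smul_eq_mul, fa_eq hf, fb_eq hf, fc_eq hf,
      hα', hβ', hγ']
    linarith
  have hW1 : W 1 = 0 := by
    have h := congrArg (fun x : E3 => x 1) hcomb
    simp only [PiLp.add_apply, PiLp.smul_apply, smul_eq_mul, PiLp.zero_apply, hc1] at h
    simp only [hW, PiLp.add_apply, PiLp.smul_apply, smul_eq_mul, fa_eq hf, fb_eq hf, fc_eq hf,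
      hα', hβ', hγ']
    linarith
  have hWe : W = (W 2) • ez := by
    apply E3.ext' <;> simp [ez, hW0, hW1]
  have hNcomb : α' • toE (fa f) + β' • toE (fb f) + γ' • toE (fc f) = (W 2) • N := by
    have h1 : R.symm W = (W 2) • N := by
      conv_lhs => rw [hWe]
      rw [map_smul]
    rw [← h1, hW, map_add, map_add, map_smul, map_smul, map_smul, R.symm_apply_apply,
      R.symm_apply_apply, R.symm_apply_apply]
  have h3 := rdot_comb3 (a := fa f) (b := fb f) (c := fc f) α' β' γ'
  rw [hNcomb, rdot_smul, rdot_smul, rdot_smul] at h3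
  obtain ⟨k1, k2, k3⟩ := h3
  have hDp : (0 : ℝ) < (zdot (fa f) (zcross (fb f) (fc f)) : ℤ) := by exact_mod_cast hdetpos
  have p1 := mul_pos pα hDp
  have p2 := mul_pos pβ hDp
  have p3 := mul_pos pγ hDp
  rw [← k1] at p1
  rw [← k2] at p2
  rw [← k3] at p3
  rcases lt_trichotomy (W 2) 0 with hs | hs | hs
  · have n1 : rdot (zcross (fb f) (fc f)) N < 0 := by
      by_contra hcon; push Not at hcon
      have := mul_nonpos_of_nonpos_of_nonneg hs.le hcon
      linarith
    have n2 : rdot (zcross (fc f) (fa f)) N < 0 := by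
      by_contra hcon; push Not at hcon
      have := mul_nonpos_of_nonpos_of_nonneg hs.le hcon
      linarith
    have n3 : rdot (zcross (fa f) (fb f)) N < 0 := by
      by_contra hcon; push Not at hcon
      have := mul_nonpos_of_nonpos_of_nonneg hs.le hcon
      linarith
    have m1 := mul_pos_of_neg_of_neg (hH (va f)) n1
    have m2 := mul_pos_of_neg_of_neg (hH (vb f)) n2
    have m3 := mul_pos_of_neg_of_neg (hH (vc f)) n3
    unfold Dform at hD
    linarith
  · rw [hs, zero_mul] at p1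
    exact lt_irrefl _ p1
  · apply hNf
    refine ⟨?_, ?_, ?_⟩
    · by_contra hcon; push Not at hcon
      have := mul_nonpos_of_nonneg_of_nonpos hs.le hcon
      linarith
    · by_contra hcon; push Not at hcon
      have := mul_nonpos_of_nonneg_of_nonpos hs.le hcon
      linarith
    · by_contra hcon; push Not at hcon
      have := mul_nonpos_of_nonneg_of_nonpos hs.le hcon
      linarith

/-- the isometry of `E3` given by a matrix of `SO(3)` -/
noncomputable def isom (A : Matrix.specialOrthogonalGroup (Fin 3) ℝ) : E3 ≃ₗᵢ[ℝ] E3 where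
  toFun x := WithLp.toLp 2 (A.1.mulVec (WithLp.ofLp x))
  invFun y := WithLp.toLp 2 (A.1.transpose.mulVec (WithLp.ofLp y))
  map_add' x y := by simp [Matrix.mulVec_add]
  map_smul' c x := by simp [Matrix.mulVec_smul]
  left_inv x := by
    have hA : A.1.transpose * A.1 = 1 :=
      (Matrix.mem_orthogonalGroup_iff' (Fin 3) ℝ).1 (Matrix.mem_specialOrthogonalGroup_iff.1 A.2).1
    simp [Matrix.mulVec_mulVec, hA]
  right_inv x := by
    have hA : A.1 * A.1.transpose = 1 :=
      (Matrix.mem_orthogonalGroup_iff (Fin 3) ℝ).1 (Matrix.mem_specialOrthogonalGroup_iff.1 A.2).1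
    simp [Matrix.mulVec_mulVec, hA]
  norm_map' x := by
    have hA : A.1.transpose * A.1 = 1 :=
      (Matrix.mem_orthogonalGroup_iff' (Fin 3) ℝ).1 (Matrix.mem_specialOrthogonalGroup_iff.1 A.2).1
    have h1 : ∀ y : E3, ‖y‖ ^ 2 = WithLp.ofLp y ⬝ᵥ WithLp.ofLp y := by
      intro y
      rw [EuclideanSpace.norm_sq_eq]
      simp [dotProduct, sq]
    have h2 : ‖WithLp.toLp 2 (A.1.mulVec (WithLp.ofLp x))‖ ^ 2 = ‖x‖ ^ 2 := by
      rw [h1]
      show (A.1.mulVec (WithLp.ofLp x)) ⬝ᵥ (A.1.mulVec (WithLp.ofLp x)) = _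
      rw [Matrix.dotProduct_mulVec, ← Matrix.mulVec_transpose, Matrix.mulVec_mulVec, hA,
        Matrix.one_mulVec, ← h1]
    exact (pow_left_inj₀ (norm_nonneg _) (norm_nonneg _) two_ne_zero).1 h2

lemma isom_apply (A : Matrix.specialOrthogonalGroup (Fin 3) ℝ) (x : E3) (i : Fin 3) :
    (isom A x) i = A.1 i 0 * x 0 + A.1 i 1 * x 1 + A.1 i 2 * x 2 := by
  show (A.1.mulVec (WithLp.ofLp x)) i = _
  simp [Matrix.mulVec, dotProduct, Fin.sum_univ_three]

lemma isom_det3 (A : Matrix.specialOrthogonalGroup (Fin 3) ℝ) (a b c : E3) :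
    det3 (isom A a) (isom A b) (isom A c) = det3 a b c := by
  have hdet : A.1.det = 1 := (Matrix.mem_specialOrthogonalGroup_iff.1 A.2).2
  rw [Matrix.det_fin_three] at hdet
  have h : det3 (isom A a) (isom A b) (isom A c) =
      (A.1 0 0 * A.1 1 1 * A.1 2 2 - A.1 0 0 * A.1 1 2 * A.1 2 1 -
        A.1 0 1 * A.1 1 0 * A.1 2 2 + A.1 0 1 * A.1 1 2 * A.1 2 0 +
        A.1 0 2 * A.1 1 0 * A.1 2 1 - A.1 0 2 * A.1 1 1 * A.1 2 0) * det3 a b c := by
    simp only [det3, isom_apply]
    ring
  rw [h, hdet, one_mul]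

/-- The main theorem: no rotation of the example is sinkable. -/
theorem not_sinkable_example (A : Matrix.specialOrthogonalGroup (Fin 3) ℝ) :
    ¬ Sinkable gr (rotate A pos) :=
  not_sinkable_isometry (isom A) (isom_det3 A)

end Pool.Agent.MP_bf58c1_co
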