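import Pool.Agent.MP_bf58c1_co.Data

/-!
# Separation checks: the 54 arcs and 36 triangles form a triangulation
-/

namespace Pool.Agent.MP_bf58c1_co

open Set

/-- cross products of consecutive vectors -/
def crossPairs : List Z3 → List Z3
  | [a, b] => [zcross a b]
  | [a, b, c] => [zcross a b, zcross b c, zcross c a]
  | _ => []

/-- `n` is nonnegative on `A`, positive somewhere on `A`, and nonpositive on `B` -/
def sepPos (A B : List Z3) (n : Z3) : Bool :=
  (A.all fun a => decide (0 ≤ zdot n a)) && (A.any fun a => decide (0 < zdot n a)) &&
    (B.all fun b => decide (zdot n b ≤ 0))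

/-- search for a separating functional -/
def sepOk (A B : List Z3) : Bool :=
  (crossPairs A ++ crossPairs B ++ (A.flatMap fun a => B.map fun b => zcross a b) ++ A).any
    fun n => sepPos A B n || sepPos A B (zneg n)

/-- the endpoints of an edge -/
def evec (e : ℕ × ℕ) : List Z3 := [vert e.1, vert e.2]

/-- the corners of a face -/
def fvec (f : ℕ) : List Z3 := [fa f, fb f, fc f]

theorem sep_vertex_edge : (List.range 20).all (fun w => etab.all fun e =>
    decide (w = e.1) || decide (w = e.2) || sepOk [vert w] (evec e)) = true := by
  decide +kernel

theorem sep_edge_edge : etab.all (fun e => etab.all fun e' =>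
    decide (e = e') || sepOk (evec e) (evec e') || sepOk (evec e') (evec e)) = true := by
  decide +kernel

theorem sep_face_edge : (List.range 36).all (fun f => etab.all fun e =>
    sepOk (fvec f) (evec e)) = true := by
  decide +kernel

theorem sep_face_face : (List.range 36).all (fun f => (List.range 36).all fun f' =>
    decide (f = f') || sepOk (fvec f) (fvec f')) = true := by
  decide +kernel

end Pool.Agent.MP_bf58c1_co
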